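import Pool.Agent.K1H56.Nag.Uct

/-! Without 2-torsion the mod 2 Betti numbers are at most the rational ones. -/

set_option autoImplicit false
set_option maxHeartbeats 400000

namespace Pool.Agent.K1H56.Nag

open Pool.Agent.Helper381 hiding bd
open Pool.Agent.TH592.Nag Module CategoryTheory

section Coef

variable {R S : Type} [CommRing R] [CommRing S] {X : Type} [TopologicalSpace X]

/-- change of coefficients -/
noncomputable def cc (f : R →+ S) (n : ℕ) : (Sing X n →₀ R) →+ (Sing X n →₀ S) :=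
  Finsupp.mapRange.addMonoidHom f

theorem cc_apply (f : R →+ S) (n : ℕ) (c : Sing X n →₀ R) (σ : Sing X n) :
    cc f n c σ = f (c σ) := rfl

theorem cc_single (f : R →+ S) (n : ℕ) (σ : Sing X n) (r : R) :
    cc f n (Finsupp.single σ r) = Finsupp.single σ (f r) := by
  ext τ
  rw [cc_apply]
  classical
  rw [Finsupp.single_apply, Finsupp.single_apply]
  split_ifs <;> simp

theorem cc_bd (f : R →+ S) (n : ℕ) (c : Sing X (n + 1) →₀ R) :
    cc f n (bd R X n c) = bd S X n (cc f (n + 1) c) := by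
  induction c using Finsupp.induction_linear with
  | zero => simp
  | add a b ha hb => rw [map_add, map_add, map_add, map_add, ha, hb]
  | single σ r =>
    rw [bd_single, cc_single, bd_single, map_sum]
    refine Finset.sum_congr rfl fun i _ => ?_
    rw [map_zsmul, cc_single]

theorem cc_cyc (f : R →+ S) (n : ℕ) {c : Sing X n →₀ R} (hc : c ∈ cyc R X n) :
    cc f n c ∈ cyc S X n := by
  cases n with
  | zero => exact Submodule.mem_top
  | succ n =>
    change bd S X n (cc f (n + 1) c) = 0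
    have h : bd R X n c = 0 := hc
    rw [← cc_bd, h, map_zero]

theorem cc_bou (f : R →+ S) (n : ℕ) {c : Sing X n →₀ R} (hc : c ∈ bou R X n) :
    cc f n c ∈ bou S X n := by
  obtain ⟨w, rfl⟩ := hc
  exact ⟨cc f (n + 1) w, (cc_bd f n w).symm⟩

theorem cc_inj (f : R →+ S) (hf : Function.Injective f) (n : ℕ) :
    Function.Injective (cc (X := X) f n) := by
  intro a b h
  ext σ
  apply hf
  rw [← cc_apply, ← cc_apply, h]

theorem pr_eq_zero (n : ℕ) (z : cyc R X n) : pr R X n z = 0 ↔ z.1 ∈ bou R X n := by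
  change Submodule.Quotient.mk z = 0 ↔ _
  rw [Submodule.Quotient.mk_eq_zero]
  exact Iff.rfl

theorem pr_surj (n : ℕ) : Function.Surjective (pr R X n) := Submodule.Quotient.mk_surjective _

end Coef

section Mod2

variable {X : Type} [TopologicalSpace X]

/-- reduction modulo two -/
abbrev f2 : ℤ →+ ZMod 2 := Int.castAddHom (ZMod 2)

theorem cc_f2_zero (n : ℕ) (c : Sing X n →₀ ℤ) (h : cc f2 n c = 0) :
    ∃ b : Sing X n →₀ ℤ, c = (2 : ℤ) • b := by
  refine ⟨c.mapRange (fun x => x / 2) (by norm_num), ?_⟩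
  ext σ
  have h1 : ((c σ : ℤ) : ZMod 2) = 0 := by
    have := DFunLike.congr_fun h σ
    exact this
  rw [ZMod.intCast_zmod_eq_zero_iff_dvd] at h1
  rw [Finsupp.smul_apply, Finsupp.mapRange_apply, smul_eq_mul]
  have h2 : (2 : ℤ) ∣ c σ := by exact_mod_cast h1
  omega

theorem cc_f2_surj (n : ℕ) (z : Sing X n →₀ ZMod 2) : ∃ c : Sing X n →₀ ℤ, cc f2 n c = z := by
  refine ⟨z.mapRange (fun x => (x.val : ℤ)) (by simp), ?_⟩
  ext σ
  rw [cc_apply, Finsupp.mapRange_apply]
  change (((z σ).val : ℤ) : ZMod 2) = z σ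
  rw [Int.cast_natCast, ZMod.natCast_zmod_val]

variable (hT : ∀ m, ∀ b ∈ cyc ℤ X m, (2 : ℤ) • b ∈ bou ℤ X m → b ∈ bou ℤ X m)

include hT

/-- mod 2 cycles lift to integral cycles -/
theorem lift_cyc (n : ℕ) (z : Sing X n →₀ ZMod 2) (hz : z ∈ cyc (ZMod 2) X n) :
    ∃ c ∈ cyc ℤ X n, cc f2 n c = z := by
  obtain ⟨c, hc⟩ := cc_f2_surj n z
  cases n with
  | zero => exact ⟨c, Submodule.mem_top, hc⟩
  | succ n =>
    have h1 : cc f2 n (bd ℤ X n c) = 0 := by
      rw [cc_bd, hc]
      exact hz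
    obtain ⟨b, hb⟩ := cc_f2_zero n _ h1
    have h2 : (2 : ℤ) • b ∈ bou ℤ X n := ⟨c, hb⟩
    have h3 : b ∈ cyc ℤ X n := by
      cases n with
      | zero => exact Submodule.mem_top
      | succ n =>
        change bd ℤ X n b = 0
        have h4 : (2 : ℤ) • bd ℤ X n b = 0 := by
          rw [← map_smul, ← hb, bd_bd]
        have h5 : ∀ σ, (bd ℤ X n b) σ = 0 := by
          intro σ
          have := DFunLike.congr_fun h4 σ
          rw [Finsupp.smul_apply, smul_eq_mul] at this
          have h6 : (2 : ℤ) * (bd ℤ X n b) σ = 0 := this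
          omega
        exact Finsupp.ext h5
    obtain ⟨e, he⟩ := hT n b h3 h2
    refine ⟨c - (2 : ℤ) • e, ?_, ?_⟩
    · change bd ℤ X n (c - (2 : ℤ) • e) = 0
      rw [map_sub, map_smul, he, hb, sub_self]
    · rw [map_sub, hc, map_zsmul]
      have : (2 : ℤ) • (cc f2 (n + 1) e) = 0 := by
        ext σ
        rw [Finsupp.smul_apply]
        change (2 : ℤ) • (cc f2 (n + 1) e σ) = 0
        generalize cc f2 (n + 1) e σ = x
        revert x
        decide
      rw [this, sub_zero]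

theorem pow_torsion (n k : ℕ) {b : Sing X n →₀ ℤ} (hb : b ∈ cyc ℤ X n)
    (h : (2 : ℤ) ^ k • b ∈ bou ℤ X n) : b ∈ bou ℤ X n := by
  induction k with
  | zero => simpa using h
  | succ k ih =>
    apply ih
    apply hT n _ (Submodule.smul_mem _ _ hb)
    rwa [smul_smul, ← pow_succ']

/-- integral independence -/
theorem indep_int {n r : ℕ} (c : Fin r → (Sing X n →₀ ℤ)) (hc : ∀ i, c i ∈ cyc ℤ X n)
    (hind : ∀ μ : Fin r → ZMod 2, ∑ i, μ i • cc f2 n (c i) ∈ bou (ZMod 2) X n → μ = 0)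
    (l : Fin r → ℤ) (hl : ∑ i, l i • c i ∈ bou ℤ X n) : l = 0 := by
  have key : ∀ k : ℕ, ∃ m : Fin r → ℤ, l = fun i => 2 ^ k * m i := by
    intro k
    induction k with
    | zero => exact ⟨l, by funext i; simp⟩
    | succ k ih =>
      obtain ⟨m, hm⟩ := ih
      have h1 : (2 : ℤ) ^ k • (∑ i, m i • c i) ∈ bou ℤ X n := by
        rw [Finset.smul_sum]
        convert hl using 2 with i
        rw [hm, smul_smul]
      have h2 : ∑ i, m i • c i ∈ bou ℤ X n :=
        pow_torsion hT n k (Submodule.sum_mem _ fun i _ => Submodule.smul_mem _ _ (hc i)) h1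
      have h3 := cc_bou f2 n h2
      rw [map_sum] at h3
      have h4 := hind (fun i => ((m i : ℤ) : ZMod 2)) (by
        convert h3 using 2 with i
        rw [map_zsmul, Int.cast_smul_eq_zsmul])
      have h5 : ∀ i, (2 : ℤ) ∣ m i := by
        intro i
        have := congrFun h4 i
        change ((m i : ℤ) : ZMod 2) = 0 at this
        rw [ZMod.intCast_zmod_eq_zero_iff_dvd] at this
        exact_mod_cast this
      choose m' hm' using h5
      refine ⟨m', ?_⟩
      rw [hm]
      funext i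
      rw [hm' i, pow_succ]
      ring
  funext i
  by_contra hne
  change l i ≠ 0 at hne
  have h1 : ∀ k : ℕ, (2 : ℤ) ^ k ∣ l i := by
    intro k
    obtain ⟨m, hm⟩ := key k
    exact ⟨m i, by rw [hm]⟩
  have h2 := h1 (l i).natAbs
  have h3 := Int.natAbs_dvd_natAbs.mpr h2
  rw [Int.natAbs_pow] at h3
  have h4 := Nat.le_of_dvd (Int.natAbs_pos.mpr hne) h3
  have h5 : (l i).natAbs < 2 ^ (l i).natAbs := Nat.lt_two_pow_self
  have h6 : Int.natAbs 2 = 2 := rfl
  rw [h6] at h4
  omega

omit hT in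
/-- common denominators -/
theorem denom {S : Type} (w : S →₀ ℚ) : ∃ (D : ℤ) (w' : S →₀ ℤ), D ≠ 0 ∧
    ∀ s, (D : ℚ) * w s = (w' s : ℚ) := by
  induction w using Finsupp.induction_linear with
  | zero => exact ⟨1, 0, one_ne_zero, fun s => by simp⟩
  | add a b ha hb =>
    obtain ⟨D, a', hD, h1⟩ := ha
    obtain ⟨D', b', hD', h2⟩ := hb
    refine ⟨D * D', D' • a' + D • b', mul_ne_zero hD hD', fun s => ?_⟩
    rw [Finsupp.add_apply, Finsupp.add_apply, Finsupp.smul_apply, Finsupp.smul_apply]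
    push_cast
    rw [smul_eq_mul, smul_eq_mul]
    push_cast
    rw [← h1, ← h2]
    ring
  | single s q =>
    refine ⟨q.den, Finsupp.single s q.num, by exact_mod_cast q.den_nz, fun t => ?_⟩
    classical
    rw [Finsupp.single_apply, Finsupp.single_apply]
    split_ifs
    · rw [mul_comm]
      exact_mod_cast Rat.mul_den_eq_num q
    · simp

/-- rational independence -/
theorem indep_rat {n r : ℕ} (c : Fin r → (Sing X n →₀ ℤ)) (hc : ∀ i, c i ∈ cyc ℤ X n)
    (hind : ∀ μ : Fin r → ZMod 2, ∑ i, μ i • cc f2 n (c i) ∈ bou (ZMod 2) X n → μ = 0)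
    (l : Fin r → ℚ)
    (hl : ∑ i, l i • cc (Int.castAddHom ℚ) n (c i) ∈ bou ℚ X n) : l = 0 := by
  obtain ⟨w, hw⟩ := hl
  obtain ⟨D, w', hD, hw'⟩ := denom w
  obtain ⟨D', l', hD', hl'⟩ := denom (Finsupp.equivFunOnFinite.symm l)
  have hl'' : ∀ i, (D' : ℚ) * l i = (l' i : ℚ) := hl'
  have hinj : Function.Injective (Int.castAddHom ℚ) := Int.cast_injective
  have h1 : (D : ℚ) • w = cc (Int.castAddHom ℚ) (n + 1) w' := by
    ext σ
    rw [Finsupp.smul_apply, smul_eq_mul, hw']
    rfl
  have h2 : cc (Int.castAddHom ℚ) n (∑ i, (D * l' i) • c i) =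
      cc (Int.castAddHom ℚ) n (bd ℤ X n (D' • w')) := by
    rw [cc_bd, map_zsmul, ← h1, map_sum]
    have e1 : D' • ((D : ℚ) • w) = ((D' : ℚ) * D) • w := by
      rw [← Int.cast_smul_eq_zsmul ℚ, smul_smul]
    rw [e1, map_smul, hw, Finset.smul_sum]
    refine Finset.sum_congr rfl fun i _ => ?_
    rw [map_zsmul, ← Int.cast_smul_eq_zsmul ℚ, smul_smul]
    congr 1
    push_cast
    rw [← hl'']
    ring
  have h3 := cc_inj _ hinj n h2
  have h4 := indep_int hT c hc hind (fun i => D * l' i) ⟨_, h3.symm⟩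
  funext i
  have h5 : D * l' i = 0 := congrFun h4 i
  have h6 : l' i = 0 := by
    rcases mul_eq_zero.mp h5 with h | h
    · exact absurd h hD
    · exact h
  have h7 := hl'' i
  rw [h6, Int.cast_zero, mul_eq_zero] at h7
  rcases h7 with h | h
  · exact absurd (by exact_mod_cast h) hD'
  · exact h

/-- independence over a field of characteristic zero -/
theorem indep_field (K : Type) [Field K] [CharZero K] {n r : ℕ} (c : Fin r → (Sing X n →₀ ℤ))
    (hc : ∀ i, c i ∈ cyc ℤ X n)
    (hind : ∀ μ : Fin r → ZMod 2, ∑ i, μ i • cc f2 n (c i) ∈ bou (ZMod 2) X n → μ = 0)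
    (l : Fin r → K)
    (hl : ∑ i, l i • cc (Int.castAddHom K) n (c i) ∈ bou K X n) : l = 0 := by
  have key : ∀ φ : K →ₗ[ℚ] ℚ, (fun i => φ (l i)) = 0 := by
    intro φ
    apply indep_rat hT c hc hind
    have h1 := cc_bou φ.toAddMonoidHom n hl
    rw [map_sum] at h1
    convert h1 using 2 with i
    ext σ
    rw [Finsupp.smul_apply, cc_apply, cc_apply, Finsupp.smul_apply, cc_apply]
    change φ (l i) * ((c i σ : ℤ) : ℚ) = φ (l i * ((c i σ : ℤ) : K))
    have : l i * ((c i σ : ℤ) : K) = (c i σ) • l i := by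
      rw [zsmul_eq_mul, mul_comm]
    rw [this, map_zsmul, zsmul_eq_mul, mul_comm]
  funext i
  by_contra hne
  change l i ≠ 0 at hne
  exact hne ((Module.forall_dual_apply_eq_zero_iff ℚ (l i)).mp (fun φ => congrFun (key φ) i))

theorem finrank_le (K : Type) [Field K] [CharZero K] (n : ℕ)
    (h2 : Module.Finite (ZMod 2) (Hm (ZMod 2) X n)) (hK : Module.Finite K (Hm K X n)) :
    finrank (ZMod 2) (Hm (ZMod 2) X n) ≤ finrank K (Hm K X n) := by
  have : Fact (Nat.Prime 2) := ⟨Nat.prime_two⟩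
  set r := finrank (ZMod 2) (Hm (ZMod 2) X n) with hr
  let b : Basis (Fin r) (ZMod 2) (Hm (ZMod 2) X n) := Module.finBasis (ZMod 2) (Hm (ZMod 2) X n)
  have hz : ∀ i, ∃ z : cyc (ZMod 2) X n, pr (ZMod 2) X n z = b i := fun i => pr_surj n (b i)
  choose z hz using hz
  have hc : ∀ i, ∃ c ∈ cyc ℤ X n, cc f2 n c = (z i).1 := fun i => lift_cyc hT n _ (z i).2
  choose c hc hcz using hc
  have hind : ∀ μ : Fin r → ZMod 2, ∑ i, μ i • cc f2 n (c i) ∈ bou (ZMod 2) X n → μ = 0 := by
    intro μ hμ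
    have h1 : pr (ZMod 2) X n (∑ i, μ i • z i) = 0 := by
      rw [pr_eq_zero]
      rw [AddSubmonoidClass.coe_finsetSum]
      convert hμ using 2 with i
      rw [hcz]
      rfl
    rw [map_sum] at h1
    have h3 : ∑ i, μ i • b i = 0 := by
      rw [← h1]
      refine Finset.sum_congr rfl fun i _ => ?_
      rw [map_smul, hz]
    funext i
    exact (Fintype.linearIndependent_iff.mp b.linearIndependent) μ h3 i
  let v : Fin r → Hm K X n := fun i =>
    pr K X n ⟨cc (Int.castAddHom K) n (c i), cc_cyc _ n (hc i)⟩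
  have hv : LinearIndependent K v := by
    rw [Fintype.linearIndependent_iff]
    intro l hl i
    have h1 : pr K X n (∑ i, l i • ⟨cc (Int.castAddHom K) n (c i), cc_cyc _ n (hc i)⟩) = 0 := by
      rw [map_sum, ← hl]
      refine Finset.sum_congr rfl fun i _ => ?_
      rw [map_smul]
    rw [pr_eq_zero, AddSubmonoidClass.coe_finsetSum] at h1
    exact congrFun (indep_field hT K c hc hind l h1) i
  have := hv.fintype_card_le_finrank
  rwa [Fintype.card_fin] at this

end Mod2

end Pool.Agent.K1H56.Nag
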