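import Pool.Agent.K1H56.Nag.Van

/-! Homology of manifolds vanishes above the dimension. -/

set_option autoImplicit false
set_option maxHeartbeats 4000000

namespace Pool.Agent.K1H56.Nag

open Pool.Agent.Y209.HB Set Metric Module

universe u v w

theorem AcO_convex {E : Type v} [NormedAddCommGroup E] [NormedSpace ℝ E] {C : Set E}
    (hC : Convex ℝ C) (n : ℕ) : AcO C (n + 1) := by
  rcases C.eq_empty_or_nonempty with rfl | ⟨x₀, hx₀⟩
  · intro z hz hc
    have : z = 0 := by
      rw [← Finsupp.support_eq_empty]
      by_contra hne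
      obtain ⟨σ, hσ⟩ := Finset.nonempty_iff_ne_empty.mpr hne
      have h1 : range σ ⊆ (∅ : Set E) := (Finsupp.mem_supported _ _).mp hz hσ
      exact h1 ⟨Sc.vert (n + 1) 0, rfl⟩
    rw [this]
    exact Submodule.zero_mem _
  · refine (contrO (fun p : E × unitInterval => (1 - (p.2 : ℝ)) • p.1 + (p.2 : ℝ) • x₀)
      (by fun_prop) ?_ ?_ x₀ ?_ hx₀).1 n
    · intro x hx t
      exact hC hx hx₀ (by linarith [t.2.2]) t.2.1 (by ring)
    · intro x hx
      simp
    · intro x hx
      simp

theorem PV_real : PV ℝ 1 := by
  intro O hO n hn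
  obtain ⟨n, rfl⟩ : ∃ k, n = k + 1 := ⟨n - 1, by omega⟩
  let J := {C : Set ℝ // ∃ x ∈ O, C = connectedComponentIn O x}
  have hU : O = ⋃ j : J, j.1 := by
    apply subset_antisymm
    · intro x hx
      exact mem_iUnion.mpr ⟨⟨_, x, hx, rfl⟩, mem_connectedComponentIn hx⟩
    · apply iUnion_subset
      rintro ⟨C, x, hx, rfl⟩
      exact connectedComponentIn_subset O x
  rw [hU]
  apply AcO_iUnion'
  · rintro ⟨C, x, hx, rfl⟩
    exact hO.connectedComponentIn
  · rintro ⟨C, x, hx, rfl⟩ ⟨D, y, hy, rfl⟩ hne
    rw [Set.disjoint_iff]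
    rintro w ⟨h1, h2⟩
    apply hne
    apply Subtype.ext
    change connectedComponentIn O x = connectedComponentIn O y
    rw [connectedComponentIn_eq h1, connectedComponentIn_eq h2]
  · rintro ⟨C, x, hx, rfl⟩
    apply AcO_convex
    rw [Real.convex_iff_isPreconnected]
    exact isPreconnected_connectedComponentIn

theorem PV_fin (d : ℕ) : ∀ (E : Type) [NormedAddCommGroup E] [NormedSpace ℝ E]
    [FiniteDimensional ℝ E], finrank ℝ E = d + 1 → PV E (d + 1) := by
  induction d with
  | zero =>
    intro E _ _ _ h
    have e : E ≃L[ℝ] ℝ := ContinuousLinearEquiv.ofFinrankEq (by rw [h, finrank_self])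
    exact PV_of_homeo e.toHomeomorph PV_real
  | succ d ih =>
    intro E _ _ _ h
    have e : E ≃L[ℝ] ℝ × EuclideanSpace ℝ (Fin (d + 1)) :=
      ContinuousLinearEquiv.ofFinrankEq (by
        rw [h, finrank_prod, finrank_self, finrank_euclideanSpace_fin]; ring)
    exact PV_of_homeo e.toHomeomorph (PV_prod (ih _ finrank_euclideanSpace_fin))

section Mfd

variable {E : Type} [NormedAddCommGroup E] [NormedSpace ℝ E] [FiniteDimensional ℝ E]
  {M : Type} [TopologicalSpace M] [ChartedSpace E M]

/-- open subsets of chart domains -/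
theorem AcO_chart {m : ℕ} (h : PV E m) (e : OpenPartialHomeomorph M E) {O : Set M}
    (hO : IsOpen O) (hOe : O ⊆ e.source) {n : ℕ} (hn : m ≤ n) : AcO O n := by
  have h1 : IsOpen (e '' O) := e.isOpen_image_of_subset_source hO hOe
  have h2 : Ac (e '' O) n := Ac_of_AcO (h _ h1 n hn)
  have k : O ≃ₜ (e '' O) := e.homeomorphOfImageSubsetSource hOe rfl
  have h3 : HE (⟨k, k.continuous⟩ : C(O, e '' O)) := HE_of_homeo k _ (fun _ => rfl)
  exact AcO_of_Ac (Ac_of_HE h3 h2)

theorem AcO_finite_charts {m : ℕ} (h : PV E m) (F : Finset M) :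
    ∀ O : Set M, IsOpen O → (O ⊆ ⋃ x ∈ F, (chartAt E x).source) → ∀ n, m ≤ n →
      AcO O (n + 1) := by
  classical
  induction F using Finset.induction_on with
  | empty =>
    intro O hO hOF n hn z hz hc
    have hOe : O = ∅ := by
      rw [← subset_empty_iff]
      simpa using hOF
    subst hOe
    have : z = 0 := by
      rw [← Finsupp.support_eq_empty]
      by_contra hne
      obtain ⟨σ, hσ⟩ := Finset.nonempty_iff_ne_empty.mpr hne
      have h1 : range σ ⊆ (∅ : Set M) := (Finsupp.mem_supported _ _).mp hz hσ
      exact h1 ⟨Sc.vert (n + 1) 0, rfl⟩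
    rw [this]
    exact Submodule.zero_mem _
  | insert a F ha ih =>
    intro O hO hOF n hn
    set U := O ∩ (chartAt E a).source with hU
    set V := O ∩ ⋃ x ∈ F, (chartAt E x).source with hV
    have hUo : IsOpen U := hO.inter (chartAt E a).open_source
    have hVo : IsOpen V := hO.inter (isOpen_biUnion fun x _ => (chartAt E x).open_source)
    apply AcO_of_cover hUo hVo _ inter_subset_left inter_subset_left
    · exact AcO_chart h (chartAt E a) hUo inter_subset_right (by omega)
    · exact ih V hVo inter_subset_right n hn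
    · intro d hd hdc _
      exact AcO_chart h (chartAt E a) (hUo.inter hVo)
        (inter_subset_left.trans inter_subset_right) hn d hd hdc
    · intro x hx
      have := hOF hx
      rw [Finset.set_biUnion_insert] at this
      rcases this with h1 | h1
      · exact Or.inl ⟨hx, h1⟩
      · exact Or.inr ⟨hx, h1⟩

/-- the homology of a compact manifold vanishes above the dimension -/
theorem Ac_above [CompactSpace M] [PreconnectedSpace M] [T1Space M] {d : ℕ}
    (hd : finrank ℝ E = d) {n : ℕ} (hn : d < n) : Ac M n := by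
  obtain ⟨n, rfl⟩ : ∃ k, n = k + 1 := ⟨n - 1, by omega⟩
  rcases d with _ | d
  · -- a point
    have hE : Subsingleton E := finrank_zero_iff.mp hd
    have hopen : ∀ x : M, IsOpen ({x} : Set M) := by
      intro x
      have h1 : (chartAt E x).source = {x} := by
        apply subset_antisymm
        · intro y hy
          exact (chartAt E x).injOn hy (mem_chart_source E x) (Subsingleton.elim _ _)
        · rintro _ rfl
          exact mem_chart_source E _
      rw [← h1]
      exact (chartAt E x).open_source
    have hdt : DiscreteTopology M := discreteTopology_iff_isOpen_singleton.mpr hopen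
    have hs : Subsingleton M := PreconnectedSpace.trivial_of_discrete
    intro z hz
    rcases isEmpty_or_nonempty M with hM | ⟨⟨x⟩⟩
    · have : z = 0 := by
        rw [← Finsupp.support_eq_empty]
        by_contra hne
        obtain ⟨σ, hσ⟩ := Finset.nonempty_iff_ne_empty.mpr hne
        exact hM.elim (σ (Sc.vert (n + 1) 0))
      rw [this]
      exact Submodule.zero_mem _
    · exact Ac_of_contr (X := M) ⟨fun p => p.1, continuous_fst⟩ x (fun y => rfl)
        (fun y => Subsingleton.elim _ _) n z hz
  · have hPV : PV E (d + 1) := PV_fin d E hd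
    obtain ⟨F, hF⟩ := isCompact_univ.elim_finite_subcover (fun x : M => (chartAt E x).source)
      (fun x => (chartAt E x).open_source) (fun x _ => mem_iUnion.mpr ⟨x, mem_chart_source E x⟩)
    have h1 := AcO_finite_charts hPV F univ isOpen_univ hF n (by omega)
    intro z hz
    have h2 := h1 z (mem_sp_univ z) hz
    rwa [Bd_univ] at h2

end Mfd

end Pool.Agent.K1H56.Nag
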