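import Pool.Agent.K1H56.Nag.Symm
import Pool.Agent.K1H56.Nag.Van2
import Pool.Agent.K1H56.Nag.Tors
import Pool.Agent.Y209.HB.BridgeQ

/-! Antipodal sets of compact symmetric spaces without 2-torsion. -/

set_option autoImplicit false
set_option maxHeartbeats 400000

namespace Pool.Agent.K1H56.Nag

open Bundle Set Module CategoryTheory AlgebraicTopology
open scoped Manifold ContDiff
open Pool.Agent.Helper381 hiding bd
open Pool.Agent.TH592.Nag

section Core

variable {E : Type} [NormedAddCommGroup E] [NormedSpace ℝ E] [FiniteDimensional ℝ E]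
  {M : Type} [MetricSpace M] [ChartedSpace E M] [IsManifold 𝓘(ℝ, E) ∞ M]
  [RiemannianBundle (fun (x : M) ↦ TangentSpace 𝓘(ℝ, E) x)]
  [IsContMDiffRiemannianBundle 𝓘(ℝ, E) ∞ E (fun (x : M) ↦ TangentSpace 𝓘(ℝ, E) x)]
  [IsRiemannianManifold 𝓘(ℝ, E) M]

theorem core [CompactSpace M] [PreconnectedSpace M] [Nonempty M] {d : ℕ}
    (hd : finrank ℝ E = d) (s : M → M → M)
    (hs : ∀ x : M, Isometry (s x) ∧ s x x = x ∧
      mfderiv 𝓘(ℝ, E) 𝓘(ℝ, E) (s x) x = -ContinuousLinearMap.id ℝ E)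
    (A : Finset M) (hA : ∀ x ∈ A, ∀ y ∈ A, s x y = y)
    (hT : ∀ m, ∀ b ∈ cyc ℤ M m, (2 : ℤ) • b ∈ bou ℤ M m → b ∈ bou ℤ M m) :
    A.card ≤ ∑ i ∈ Finset.range (d + 1), finrank ℝ (Hm ℝ M i) := by
  have hp : Fact (Nat.Prime 2) := ⟨Nat.prime_two⟩
  obtain ⟨R, G⟩ := riemannian_geo (E := E) (M := M)
  have hAnt : IsAntipodal (A : Set M) := by
    intro x hx y hy
    obtain ⟨s', hs1, hs2⟩ := isSymmetryAt_of_mfderiv (E := E) (s x) (hs x).1 x (hs x).2.1 (hs x).2.2
    refine ⟨s', hs2, ?_⟩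
    rw [hs1]
    exact hA x hx y hy
  have h1 := G.card_le A hAnt
  obtain ⟨a1, N1, b1⟩ := G.betti_finite (ZMod 2)
  obtain ⟨a2, _, _⟩ := G.betti_finite ℝ
  obtain ⟨a3, _, _⟩ := G.betti_finite ℚ
  rw [totalBetti_eq (max N1 (d + 1)) a1 (fun n hn => b1 n (le_trans (le_max_left _ _) hn)),
    Nat.cast_le] at h1
  refine h1.trans ?_
  have f1 : ∀ n, Module.Finite (ZMod 2) (Hm (ZMod 2) M n) := fun n => hm_finite _ _ _ (a1 n)
  have f2 : ∀ n, Module.Finite ℝ (Hm ℝ M n) := fun n => hm_finite _ _ _ (a2 n)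
  have f3 : ∀ n, Module.Finite ℚ (Hm ℚ M n) := fun n => hm_finite _ _ _ (a3 n)
  have hzero : ∀ n, d < n → finrank (ZMod 2) (SingCoh (ZMod 2) M n) = 0 := by
    intro n hn
    have g1 := finrank_le hT ℚ n (f1 n) (f3 n)
    obtain ⟨e⟩ := bridge ℚ M n
    have g2 := ModuleCat.subsingleton_of_isZero
      (Pool.Agent.Y209.HB.isZero_of_Ac (Ac_above (E := E) (M := M) hd hn))
    have g3 : Subsingleton (Hm ℚ M n) := e.symm.toEquiv.subsingleton
    have g4 : finrank ℚ (Hm ℚ M n) = 0 := finrank_zero_of_subsingleton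
    rw [hm_finrank]
    omega
  rw [← Finset.sum_subset (Finset.range_mono (le_max_right N1 (d + 1)))]
  · refine Finset.sum_le_sum fun n _ => ?_
    rw [hm_finrank]
    exact finrank_le hT ℝ n (f1 n) (f2 n)
  · intro n _ hn
    apply hzero
    rw [Finset.mem_range] at hn
    omega

end Core

theorem no_tors (M : Type) [TopologicalSpace M]
    (h : ¬ ∃ i : ℕ, ∃ g : ((((AlgebraicTopology.singularHomologyFunctor (ModuleCat.{0} ℤ) i).obj
            (ModuleCat.of ℤ ℤ)).obj (TopCat.of M) : ModuleCat.{0} ℤ) : Type),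
      addOrderOf g = 2) :
    ∀ m, ∀ b ∈ cyc ℤ M m, (2 : ℤ) • b ∈ bou ℤ M m → b ∈ bou ℤ M m := by
  intro m b hb h2
  by_contra hne
  apply h
  obtain ⟨e⟩ := bridge ℤ M m
  have h3 : pr ℤ M m ⟨b, hb⟩ ≠ 0 := by
    rw [Ne, pr_eq_zero]
    exact hne
  have h4 : (2 : ℤ) • pr ℤ M m ⟨b, hb⟩ = 0 := by
    rw [← map_smul, pr_eq_zero]
    exact h2
  refine ⟨m, e.symm (pr ℤ M m ⟨b, hb⟩), ?_⟩
  have hp : Fact (Nat.Prime 2) := ⟨Nat.prime_two⟩
  apply addOrderOf_eq_prime
  · rw [two_zsmul] at h4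
    rw [two_nsmul, ← map_add, h4, map_zero]
  · intro h5
    exact h3 (e.symm.map_eq_zero_iff.mp h5)

section EM

variable {M : Type} [EMetricSpace M]

theorem edist_ne_top' [PreconnectedSpace M] (x y : M) : edist x y ≠ ⊤ := by
  set S : Set M := {y | edist x y ≠ ⊤} with hS
  have hcl : IsClopen S := by
    refine ⟨⟨?_⟩, ?_⟩
    · rw [EMetric.isOpen_iff]
      intro z hz
      have hz' : edist x z = ⊤ := by
        by_contra h
        exact hz h
      refine ⟨1, one_pos, fun w hw hw' => ?_⟩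
      rw [Metric.mem_eball] at hw
      have h1 := edist_triangle x w z
      rw [hz'] at h1
      have h2 : edist x w + edist w z < ⊤ :=
        ENNReal.add_lt_top.2 ⟨lt_top_iff_ne_top.2 hw', hw.trans ENNReal.one_lt_top⟩
      exact absurd h1 (not_le.2 h2)
    · rw [EMetric.isOpen_iff]
      intro z hz
      refine ⟨1, one_pos, fun w hw => ?_⟩
      rw [Metric.mem_eball] at hw
      have h1 := edist_triangle x z w
      have h2 : edist x z + edist z w < ⊤ :=
        ENNReal.add_lt_top.2 ⟨lt_top_iff_ne_top.2 hz, by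
          rw [edist_comm]; exact hw.trans ENNReal.one_lt_top⟩
      exact (lt_of_le_of_lt h1 h2).ne
  have hne : S.Nonempty := ⟨x, by
    show edist x x ≠ ⊤
    rw [edist_self]; exact ENNReal.zero_ne_top⟩
  have := hcl.eq_univ hne
  have hy : y ∈ S := by rw [this]; trivial
  exact hy

end EM

end Pool.Agent.K1H56.Nag
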