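import Pool.Agent.Helper381.Riem3

/-! Metric midpoints in a chart, and dyadic chains. -/

set_option autoImplicit false
set_option maxHeartbeats 4000000

namespace Pool.Agent.K1H56.Nag

open Pool.Agent.Helper381 Metric Set

universe u v

section Dyadic

variable {E : Type v} [NormedAddCommGroup E] [NormedSpace ℝ E]

theorem sqrt_half_facts : 0 < √(1 / 2 : ℝ) ∧ √(1 / 2 : ℝ) * √(1 / 2 : ℝ) = 1 / 2 ∧
    √(1 / 2 : ℝ) ≤ 71 / 100 ∧ √(2 : ℝ) ≤ 142 / 100 := by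
  refine ⟨Real.sqrt_pos.mpr (by norm_num), Real.mul_self_sqrt (by norm_num), ?_, ?_⟩
  · rw [show (71 / 100 : ℝ) = √((71 / 100) ^ 2) by rw [Real.sqrt_sq (by norm_num)]]
    exact Real.sqrt_le_sqrt (by norm_num)
  · rw [show (142 / 100 : ℝ) = √((142 / 100) ^ 2) by rw [Real.sqrt_sq (by norm_num)]]
    exact Real.sqrt_le_sqrt (by norm_num)

/-- a sequence with approximate halving towards `P` -/
theorem dyadic (P : E) (A : ℕ → E) {K h : ℝ} (hK : 0 ≤ K) (hh : 0 ≤ h) (h0 : ‖A 0 - P‖ ≤ h)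
    (hs : 20 * K * √h ≤ 1)
    (hstep : ∀ n, ‖A (n + 1) - (1 / 2 : ℝ) • (A n + P)‖ ≤ K * (‖A n - P‖ * √‖A n - P‖)) (n : ℕ) :
    ‖(2 : ℝ) ^ n • (A n - P) - (A 0 - P)‖ ≤ 20 * K * (h * √h) := by
  obtain ⟨θ0, θ2, θ3, s2⟩ := sqrt_half_facts
  set θ := √(1 / 2 : ℝ) with hθ
  have hsq : 0 ≤ √h := Real.sqrt_nonneg _
  have key : ∀ n : ℕ, ‖(2 : ℝ) ^ n • (A n - P) - (A 0 - P)‖ ≤ 20 * K * (h * √h) * (1 - θ ^ n) := by
    intro n
    induction n with
    | zero => simp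
    | succ n ih =>
      have hθn : 0 ≤ θ ^ n := by positivity
      have hθn1 : θ ^ n ≤ 1 := pow_le_one₀ θ0.le (by linarith)
      have hKh : 0 ≤ 20 * K * (h * √h) := by positivity
      have e1 : ‖(2 : ℝ) ^ n • (A n - P)‖ ≤ 2 * h := by
        have h1 := norm_sub_norm_le ((2 : ℝ) ^ n • (A n - P)) (A 0 - P)
        have h2 : 20 * K * (h * √h) * (1 - θ ^ n) ≤ h := by
          calc 20 * K * (h * √h) * (1 - θ ^ n) ≤ 20 * K * (h * √h) * 1 := by gcongr; linarith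
            _ = (20 * K * √h) * h := by ring
            _ ≤ 1 * h := by gcongr
            _ = h := one_mul h
        linarith
      rw [norm_smul, Real.norm_of_nonneg (by positivity)] at e1
      have e2 : ‖A n - P‖ ≤ 2 * h * (1 / 2) ^ n := by
        have h2n : (0 : ℝ) < 2 ^ n := by positivity
        rw [one_div, inv_pow, ← div_eq_mul_inv, le_div_iff₀ h2n]
        linarith
      have e3 : √‖A n - P‖ ≤ √2 * √h * θ ^ n := by
        have h1 : √‖A n - P‖ ≤ √(2 * h * (1 / 2) ^ n) := Real.sqrt_le_sqrt e2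
        have h2 : √(2 * h * (1 / 2) ^ n) = √2 * √h * θ ^ n := by
          rw [Real.sqrt_mul (by positivity), Real.sqrt_mul (by norm_num), hθ, Real.sqrt_eq_rpow,
            Real.sqrt_eq_rpow, Real.sqrt_eq_rpow, Real.sqrt_eq_rpow]
          congr 1
          rw [← Real.rpow_natCast, ← Real.rpow_mul (by norm_num), mul_comm (n : ℝ),
            Real.rpow_mul (by norm_num), Real.rpow_natCast]
        rwa [h2] at h1
      have e4 : ‖A (n + 1) - (1 / 2 : ℝ) • (A n + P)‖ ≤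
          K * ((2 * h * (1 / 2) ^ n) * (√2 * √h * θ ^ n)) := by
        refine (hstep n).trans ?_
        gcongr
      have e5 : (2 : ℝ) ^ (n + 1) • (A (n + 1) - P) - (A 0 - P) =
          ((2 : ℝ) ^ n • (A n - P) - (A 0 - P)) +
            (2 : ℝ) ^ (n + 1) • (A (n + 1) - (1 / 2 : ℝ) • (A n + P)) := by
        rw [pow_succ]; module
      rw [e5]
      refine (norm_add_le _ _).trans ?_
      rw [norm_smul, Real.norm_of_nonneg (by positivity)]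
      have e6 : (2 : ℝ) ^ (n + 1) * ‖A (n + 1) - (1 / 2 : ℝ) • (A n + P)‖ ≤
          (4 * √2) * K * (h * √h) * θ ^ n := by
        calc (2 : ℝ) ^ (n + 1) * ‖A (n + 1) - (1 / 2 : ℝ) • (A n + P)‖
            ≤ (2 : ℝ) ^ (n + 1) * (K * ((2 * h * (1 / 2) ^ n) * (√2 * √h * θ ^ n))) := by gcongr
          _ = (4 * √2) * K * (h * √h) * θ ^ n * (2 ^ n * (1 / 2) ^ n) := by rw [pow_succ]; ring
          _ = _ := by rw [← mul_pow]; norm_num
      have e7 : (4 * √2) * K * (h * √h) * θ ^ n ≤ 20 * K * (h * √h) * (θ ^ n - θ ^ (n + 1)) := by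
        have : θ ^ n - θ ^ (n + 1) = (1 - θ) * θ ^ n := by rw [pow_succ]; ring
        rw [this]
        have h1 : 4 * √2 ≤ 20 * (1 - θ) := by linarith
        have h2 : 0 ≤ K * (h * √h) * θ ^ n := by positivity
        nlinarith
      nlinarith
  refine (key n).trans ?_
  have : 0 ≤ θ ^ n := by positivity
  have h2 : 0 ≤ 20 * K * (h * √h) := by positivity
  nlinarith

end Dyadic

section Mid

variable {M : Type u} {E : Type v} [MetricSpace M] [NormedAddCommGroup E] [NormedSpace ℝ E]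
  (c : Loc M E)

/-- metric midpoints are close to affine midpoints -/
theorem mid_est (hmid : ∀ x y : M, ∃ m : M, dist x m = dist x y / 2 ∧ dist m y = dist x y / 2) :
    ∃ ρ > 0, ∃ K ≥ 0, ρ ≤ c.r₁ ∧ ρ < c.τ ∧ ∀ u ∈ ball c.x₀ ρ, ∀ v ∈ ball c.x₀ ρ, ∀ m : M,
      dist (c.ψ u) m = dist (c.ψ u) (c.ψ v) / 2 → dist m (c.ψ v) = dist (c.ψ u) (c.ψ v) / 2 →
      ∃ w ∈ ball c.x₀ c.r₁, c.ψ w = m ∧
        ‖w - (1 / 2 : ℝ) • (u + v)‖ ≤ K * (‖u - v‖ * √‖u - v‖) := by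
  obtain ⟨ρ', hρ0, hρ1, hρτ, hsmall⟩ := c.exists_rho
  have hL := c.one_le_L
  have hl := c.lampos
  have hC₃ := c.C₃pos
  set ρ₀ := ρ' / (2 + 2 * c.L ^ 2) with hρ₀
  have hρ₀pos : 0 < ρ₀ := by positivity
  have hρρ : ρ' = ρ₀ * (2 + 2 * c.L ^ 2) := by rw [hρ₀]; field_simp
  have hρ₀le : ρ₀ ≤ ρ' := by rw [hρρ]; nlinarith
  set ρ := ρ₀ / (1 + c.L ^ 2) with hρ
  have hρpos : 0 < ρ := by positivity
  have hρe : ρ₀ = ρ * (1 + c.L ^ 2) := by rw [hρ]; field_simp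
  have hρle : ρ ≤ ρ₀ := by rw [hρe]; nlinarith
  refine ⟨ρ, hρpos, √(4 / 3 * c.C₃ / c.lam), Real.sqrt_nonneg _, by linarith, by linarith, ?_⟩
  intro u hu v hv m hm1 hm2
  have hu0 : u ∈ ball c.x₀ ρ₀ := ball_subset_ball hρle hu
  have hv0 : v ∈ ball c.x₀ ρ₀ := ball_subset_ball hρle hv
  have hu1 : u ∈ ball c.x₀ c.r₁ := ball_subset_ball (by linarith) hu0
  have hv1 : v ∈ ball c.x₀ c.r₁ := ball_subset_ball (by linarith) hv0
  set D := dist (c.ψ u) (c.ψ v) with hD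
  have hD0 : 0 ≤ D := dist_nonneg
  have huv : ‖v - u‖ < 2 * ρ := by
    have h1 := dist_triangle_right v u c.x₀
    rw [mem_ball] at hu hv
    rw [← dist_eq_norm]
    linarith
  have hDL : D ≤ c.L * ‖v - u‖ := c.dist_le hu1 hv1
  have hτ : dist (c.ψ u) m < c.τ := by
    rw [hm1]
    have : c.L * ‖v - u‖ ≤ c.L * (2 * ρ) := by gcongr
    nlinarith [sq_nonneg (c.L - 1)]
  obtain ⟨w, hw, hwm, hwu⟩ := c.in_chart hu1 hτ
  rw [hm1] at hwu
  have hw0 : w ∈ ball c.x₀ ρ₀ := by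
    rw [mem_ball] at hu ⊢
    have h1 := dist_triangle w u c.x₀
    rw [dist_eq_norm w u] at h1
    have h2 : c.L * (D / 2) ≤ c.L ^ 2 * ρ := by
      have : c.L * ‖v - u‖ ≤ c.L * (2 * ρ) := by gcongr
      nlinarith
    nlinarith
  have hw1 : w ∈ ball c.x₀ c.r₁ := ball_subset_ball (by linarith) hw0
  refine ⟨w, hw1, hwm, ?_⟩
  set h := (1 / 2 : ℝ) • (u + v) with hh
  have hh0 : h ∈ ball c.x₀ ρ₀ := Loc.half_mem_ball hu0 hv0
  have hh1 : h ∈ ball c.x₀ c.r₁ := ball_subset_ball (by linarith) hh0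
  -- the affine midpoint is almost a metric midpoint
  have au : dist (c.ψ u) (c.ψ h) ^ 2 ≤ D ^ 2 / 4 + c.C₃ / 2 * ‖v - u‖ ^ 3 := by
    have h1 := c.dist_sq_le' hu1 hh1
    have h2 := c.le_dist_sq' hu1 hv1
    have e : h - u = (1 / 2 : ℝ) • (v - u) := by rw [hh]; module
    rw [e, norm_smul] at h1
    simp only [map_smul, LinearMap.smul_apply, smul_eq_mul] at h1
    have : ‖(1 / 2 : ℝ)‖ = 1 / 2 := by norm_num
    rw [this] at h1
    have h3 : 0 ≤ c.C₃ * ‖v - u‖ ^ 3 := by positivity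
    nlinarith
  have av : dist (c.ψ v) (c.ψ h) ^ 2 ≤ D ^ 2 / 4 + c.C₃ / 2 * ‖v - u‖ ^ 3 := by
    have h1 := c.dist_sq_le' hv1 hh1
    have h2 := c.le_dist_sq' hv1 hu1
    have e : h - v = (1 / 2 : ℝ) • (u - v) := by rw [hh]; module
    rw [e, norm_smul] at h1
    simp only [map_smul, LinearMap.smul_apply, smul_eq_mul] at h1
    have : ‖(1 / 2 : ℝ)‖ = 1 / 2 := by norm_num
    rw [this] at h1
    rw [norm_sub_rev u v, dist_comm (c.ψ v) (c.ψ u)] at h2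
    rw [norm_sub_rev u v] at h1
    have h3 : 0 ≤ c.C₃ * ‖v - u‖ ^ 3 := by positivity
    nlinarith
  have bu := c.sc_local hmid hρ0 hρ1 hρτ hsmall hu0 hw0 hh0
  have bv := c.sc_local hmid hρ0 hρ1 hρτ hsmall hv0 hw0 hh0
  rw [hwm, hm1] at bu
  rw [hwm, dist_comm (c.ψ v) m, hm2] at bv
  set p := c.ψ ((1 / 2 : ℝ) • (w + h)) with hp
  have htri := dist_triangle (c.ψ u) p (c.ψ v)
  rw [dist_comm p (c.ψ v)] at htri
  set Q := c.G c.x₀ (w - h) (w - h) with hQ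
  have hpu : 0 ≤ dist (c.ψ u) p := dist_nonneg
  have hpv : 0 ≤ dist (c.ψ v) p := dist_nonneg
  have hQle : Q ≤ 4 / 3 * c.C₃ * ‖v - u‖ ^ 3 := by
    have h1 : D ^ 2 / 2 ≤ dist (c.ψ u) p ^ 2 + dist (c.ψ v) p ^ 2 := by
      have g1 := sq_nonneg (dist (c.ψ u) p - dist (c.ψ v) p)
      have g2 : D ^ 2 ≤ (dist (c.ψ u) p + dist (c.ψ v) p) ^ 2 := by gcongr
      linarith [g1, g2, show (dist (c.ψ u) p + dist (c.ψ v) p) ^ 2 +
        (dist (c.ψ u) p - dist (c.ψ v) p) ^ 2 = 2 * (dist (c.ψ u) p ^ 2 + dist (c.ψ v) p ^ 2)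
        from by ring]
    have e1 : (D / 2) ^ 2 = D ^ 2 / 4 := by ring
    rw [e1] at bu bv
    linarith
  have hlow : c.lam * ‖w - h‖ ^ 2 ≤ Q := c.lower c.x₀ (mem_ball_self c.rpos) (w - h)
  have hfin : ‖w - h‖ ^ 2 ≤ 4 / 3 * c.C₃ / c.lam * ‖v - u‖ ^ 3 := by
    rw [div_mul_eq_mul_div, le_div_iff₀ hl]
    linarith
  have h9 : ‖w - h‖ ≤ √(4 / 3 * c.C₃ / c.lam * ‖v - u‖ ^ 3) := Real.le_sqrt_of_sq_le hfin
  refine h9.trans (le_of_eq ?_)
  rw [Real.sqrt_mul (by positivity), norm_sub_rev u v]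
  congr 1
  have h10 : ‖v - u‖ ^ 3 = ‖v - u‖ ^ 2 * ‖v - u‖ := by ring
  rw [h10, Real.sqrt_mul (by positivity), Real.sqrt_sq (norm_nonneg _)]

end Mid

end Pool.Agent.K1H56.Nag
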