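import Pool.Agent.K1H56.Nag.Triv2

/-! Isometries with derivative minus the identity are symmetries. -/

set_option autoImplicit false
set_option maxHeartbeats 4000000

namespace Pool.Agent.K1H56.Nag

open Pool.Agent.Helper381 Metric Set

universe u v

/-- an isometry of a compact space into itself is onto -/
theorem isometry_surj {M : Type u} [MetricSpace M] [CompactSpace M] (s : M → M) (hs : Isometry s) :
    Function.Surjective s := by
  intro y
  have hcl : IsClosed (range s) := (isCompact_range hs.continuous).isClosed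
  have : y ∈ closure (range s) := by
    rw [Metric.mem_closure_iff]
    intro ε hε
    obtain ⟨a, φ, hφ, ha⟩ := CompactSpace.tendsto_subseq (fun n => s^[n] y)
    have hc := ha.cauchySeq
    rw [Metric.cauchySeq_iff] at hc
    obtain ⟨N, hN⟩ := hc ε hε
    have h1 := hN N le_rfl (N + 1) (by omega)
    simp only [Function.comp_apply] at h1
    have hlt : φ N < φ (N + 1) := hφ (by omega)
    obtain ⟨k, hk⟩ := Nat.exists_eq_add_of_lt hlt
    rw [hk] at h1
    have e : s^[φ N + k + 1] y = s^[φ N] (s^[k + 1] y) := by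
      rw [← Function.iterate_add_apply]; congr 1
    have hi : Isometry (s^[φ N]) := by
      induction φ N with
      | zero => exact isometry_id
      | succ n ih => rw [Function.iterate_succ]; exact ih.comp hs
    rw [e, hi.dist_eq] at h1
    refine ⟨s^[k + 1] y, ?_, h1⟩
    rw [Function.iterate_succ_apply']
    exact ⟨_, rfl⟩
  rwa [hcl.closure_eq] at this

section

variable {M : Type u} {E : Type v} [MetricSpace M] [NormedAddCommGroup E] [NormedSpace ℝ E]

theorem NC.near (N : NC M E) {δ : ℝ} (hδ : 0 < δ) {y : M}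
    (hy : dist (N.ψ N.x₀) y < min N.ρ (min N.ρ δ / N.L)) :
    ‖N.φ y - N.x₀‖ < δ ∧ N.ψ (N.φ y) = y ∧ N.φ y ∈ ball N.x₀ N.ρ ∧
      ‖N.φ y - N.x₀‖ ≤ N.L * dist (N.ψ N.x₀) y := by
  have hL := N.L1
  obtain ⟨w, hw1, hw2⟩ := N.inc y (hy.trans_le (min_le_left _ _))
  have h1 := hy.trans_le (min_le_right _ _)
  rw [lt_div_iff₀ (by linarith)] at h1
  have h2 : ‖w - N.x₀‖ < min N.ρ δ := by linarith
  have h3 : w ∈ ball N.x₀ N.ρ := by
    rw [mem_ball, dist_eq_norm]; exact h2.trans_le (min_le_left _ _)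
  have h4 : N.φ y = w := by rw [← hw1]; exact N.φψ w h3
  rw [h4]
  exact ⟨h2.trans_le (min_le_right _ _), hw1, h3, hw2⟩

theorem NC.symm (N : NC M E) {s : M → M} (hs : Isometry s) (hq : s (N.ψ N.x₀) = N.ψ N.x₀)
    (hF : ∀ ε > 0, ∃ δ > 0, ∀ u, ‖u - N.x₀‖ < δ →
      ‖N.φ (s (N.ψ u)) - N.x₀ + (u - N.x₀)‖ ≤ ε * ‖u - N.x₀‖) :
    (∃ ε > 0, ∀ y, dist y (N.ψ N.x₀) < ε → s y = y → y = N.ψ N.x₀) ∧
    (∀ ε > 0, ∃ δ > 0, ∀ y, dist (N.ψ N.x₀) y < δ →
      dist y (s (s y)) ≤ ε * dist (N.ψ N.x₀) y) := by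
  have hL := N.L1
  have hρ := N.ρpos
  have hx₀ : N.x₀ ∈ ball N.x₀ N.ρ := mem_ball_self N.ρpos
  constructor
  · obtain ⟨δ, hδ, h⟩ := hF 1 one_pos
    refine ⟨min N.ρ (min N.ρ δ / N.L), by positivity, fun y hy hfix => ?_⟩
    rw [dist_comm] at hy
    obtain ⟨h1, h2, h3, h4⟩ := N.near hδ hy
    have h5 := h _ h1
    rw [h2, hfix, ← two_smul ℝ, norm_smul] at h5
    have h6 : ‖N.φ y - N.x₀‖ = 0 := by
      have := norm_nonneg (N.φ y - N.x₀)
      have e : ‖(2 : ℝ)‖ = 2 := by norm_num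
      rw [e] at h5
      linarith
    have h7 : N.φ y = N.x₀ := by
      rw [← sub_eq_zero]; exact norm_eq_zero.mp h6
    rw [← h2, h7]
  · intro ε hε
    set η := min 1 (ε / (3 * N.L ^ 2)) with hη
    have hη0 : 0 < η := by positivity
    have hη1 : η ≤ 1 := min_le_left _ _
    have hη2 : η ≤ ε / (3 * N.L ^ 2) := min_le_right _ _
    rw [le_div_iff₀ (by positivity)] at hη2
    obtain ⟨δ, hδ, h⟩ := hF η hη0
    refine ⟨min N.ρ (min N.ρ δ / N.L), by positivity, fun y hy => ?_⟩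
    have hd : ∀ z, dist (N.ψ N.x₀) (s z) = dist (N.ψ N.x₀) z := fun z => by
      conv_lhs => rw [← hq]
      exact hs.dist_eq _ _
    obtain ⟨a1, a2, a3, a4⟩ := N.near hδ hy
    obtain ⟨b1, b2, b3, b4⟩ := N.near hδ (y := s y) (by rw [hd]; exact hy)
    obtain ⟨c1, c2, c3, c4⟩ := N.near hδ (y := s (s y)) (by rw [hd, hd]; exact hy)
    have h1 := h _ a1
    have h2 := h _ b1
    rw [a2] at h1
    rw [b2] at h2
    set u := N.φ y
    set v := N.φ (s y)
    set w := N.φ (s (s y))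
    have h3 : w - u = (w - N.x₀ + (v - N.x₀)) - (v - N.x₀ + (u - N.x₀)) := by abel
    have h4 : v - N.x₀ = (v - N.x₀ + (u - N.x₀)) - (u - N.x₀) := by abel
    have h5 : ‖v - N.x₀‖ ≤ η * ‖u - N.x₀‖ + ‖u - N.x₀‖ := by
      rw [h4]; refine (norm_sub_le _ _).trans ?_
      linarith
    have hn : 0 ≤ ‖u - N.x₀‖ := norm_nonneg _
    have h6 : ‖v - N.x₀‖ ≤ 2 * ‖u - N.x₀‖ := by nlinarith
    have h7 : ‖w - u‖ ≤ 3 * η * ‖u - N.x₀‖ := by
      rw [h3]; refine (norm_sub_le _ _).trans ?_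
      have : η * ‖v - N.x₀‖ ≤ η * (2 * ‖u - N.x₀‖) := by gcongr
      linarith
    have h8 := N.dle u a3 w c3
    rw [a2, c2] at h8
    have hd0 : 0 ≤ dist (N.ψ N.x₀) y := dist_nonneg
    calc dist y (s (s y)) ≤ N.L * ‖w - u‖ := h8
      _ ≤ N.L * (3 * η * ‖u - N.x₀‖) := by gcongr
      _ ≤ N.L * (3 * η * (N.L * dist (N.ψ N.x₀) y)) := by gcongr
      _ = (η * (3 * N.L ^ 2)) * dist (N.ψ N.x₀) y := by ring
      _ ≤ ε * dist (N.ψ N.x₀) y := by gcongr

end

section Riem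

open Bundle Manifold Filter
open scoped ENNReal ContDiff Topology Manifold

variable {E : Type v} [NormedAddCommGroup E] [NormedSpace ℝ E] [FiniteDimensional ℝ E]
  {M : Type u} [MetricSpace M] [ChartedSpace E M] [IsManifold 𝓘(ℝ, E) ∞ M]
  [RiemannianBundle (fun (x : M) ↦ TangentSpace 𝓘(ℝ, E) x)]
  [IsContMDiffRiemannianBundle 𝓘(ℝ, E) ∞ E (fun (x : M) ↦ TangentSpace 𝓘(ℝ, E) x)]
  [IsRiemannianManifold 𝓘(ℝ, E) M]

theorem exists_loc' (p : M) : ∃ c : Loc M E, c.x₀ = extChartAt 𝓘(ℝ, E) p p ∧ c.ψ c.x₀ = p ∧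
    c.φ = extChartAt 𝓘(ℝ, E) p ∧ c.ψ = (extChartAt 𝓘(ℝ, E) p).symm := by
  obtain ⟨g, hgx, hgt, hG⟩ := exists_metCoef (E := E) p
  refine ⟨{ toMetCoef := g, φ := extChartAt 𝓘(ℝ, E) p, ψ := psi p,
            φψ := fun v hv => (extChartAt 𝓘(ℝ, E) p).right_inv (hgt hv),
            isOpen_image := fun V hV hVo => isOpen_psi_image p (hV.trans hgt) hVo,
            contφ := ?_, contψ := (continuousOn_extChartAt_symm p).mono hgt,
            up := ?_, lo := ?_ }, ?_⟩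
  · apply (continuousOn_extChartAt p).mono
    rintro _ ⟨v, hv, rfl⟩
    exact (extChartAt 𝓘(ℝ, E) p).map_target (hgt hv)
  · intro x hx y hy K hK h
    apply up_chart p _ K hK
    · intro t ht
      have := h t ht
      rwa [hG] at this
    · intro t ht
      apply hgt
      have := (convex_ball g.x₀ g.r) hx hy (by linarith [ht.2] : (0 : ℝ) ≤ 1 - t) ht.1 (by ring)
      have e : (1 - t) • x + t • y = x + t • (y - x) := by module
      rwa [e] at this
  · intro x hx s K hs hK h y hy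
    obtain ⟨w, hw, hwy, hle⟩ := lo_chart p hgt hx hs hK (by
      intro w hw
      have := h w (by rw [hG]; exact hw)
      refine ⟨this.1, fun v => ?_⟩
      have h2 := this.2 v
      rwa [hG, hG] at h2) y hy
    exact ⟨w, hw, hwy, by rw [hG]; exact hle⟩
  · refine ⟨hgx, ?_, rfl, rfl⟩
    change psi p g.x₀ = p
    rw [hgx]
    exact extChartAt_to_inv p

theorem isSymmetryAt_of_mfderiv [CompactSpace M] [PreconnectedSpace M] (s : M → M)
    (hs : Isometry s) (x : M) (hx : s x = x)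
    (hd : mfderiv 𝓘(ℝ, E) 𝓘(ℝ, E) s x = -ContinuousLinearMap.id ℝ E) :
    ∃ s' : M ≃ᵢ M, (∀ y, s' y = s y) ∧ IsSymmetryAt x s' := by
  obtain ⟨R, G⟩ := riemannian_geo (E := E) (M := M)
  obtain ⟨c, hc1, hc2, hc3, hc4⟩ := exists_loc' (E := E) x
  obtain ⟨N, hN1, hN2, hN3⟩ := exists_NC c G.midpt
  have hq : N.ψ N.x₀ = x := by rw [hN3, hN1, hc2]
  have hF : ∀ ε > 0, ∃ δ > 0, ∀ u, ‖u - N.x₀‖ < δ →
      ‖N.φ (s (N.ψ u)) - N.x₀ + (u - N.x₀)‖ ≤ ε * ‖u - N.x₀‖ := by
    intro ε hε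
    by_cases hm : MDifferentiableAt 𝓘(ℝ, E) 𝓘(ℝ, E) s x
    · have h1 := hm.hasMFDerivAt.2
      rw [hd] at h1
      have h2 : HasFDerivAt (fun u : E => N.φ (s (N.ψ u))) (-ContinuousLinearMap.id ℝ E) N.x₀ := by
        rw [hN1, hN2, hN3, hc1, hc3, hc4]
        have h3 := h1
        unfold writtenInExtChartAt at h3
        rw [hx] at h3
        have h4 : range 𝓘(ℝ, E) = univ := by simp
        rw [h4] at h3
        exact (hasFDerivWithinAt_univ (E := E) (F := E)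
          (f := fun u => extChartAt 𝓘(ℝ, E) x (s ((extChartAt 𝓘(ℝ, E) x).symm u)))
          (f' := (-ContinuousLinearMap.id ℝ E : E →L[ℝ] E))).mp h3
      have h3 := h2.isLittleO.def hε
      rw [Metric.eventually_nhds_iff] at h3
      obtain ⟨δ, hδ, h4⟩ := h3
      refine ⟨δ, hδ, fun u hu => ?_⟩
      have h5 := h4 (by rw [dist_eq_norm]; exact hu)
      have h6 : N.φ (s (N.ψ N.x₀)) = N.x₀ := by
        rw [hq, hx]
        rw [← hq]
        exact N.φψ _ (mem_ball_self N.ρpos)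
      simp only [h6] at h5
      have h7 : N.φ (s (N.ψ u)) - N.x₀ + (u - N.x₀) =
          N.φ (s (N.ψ u)) - N.x₀ - (-ContinuousLinearMap.id ℝ E) (u - N.x₀) := by
        rw [neg_apply, ContinuousLinearMap.id_apply]
        abel
      rw [h7]
      exact h5
    · rw [mfderiv_zero_of_not_mdifferentiableAt hm] at hd
      have hE : ∀ v : E, v = 0 := by
        intro v
        have h1 : (0 : E →L[ℝ] E) v = (-ContinuousLinearMap.id ℝ E) v :=
          congrArg (fun A : E →L[ℝ] E => A v) hd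
        simpa using h1.symm
      refine ⟨1, one_pos, fun u _ => ?_⟩
      rw [hE (u - N.x₀), hE (N.φ (s (N.ψ u)) - N.x₀)]
      simp
  obtain ⟨hiso, hinf⟩ := N.symm hs (by rw [hq, hx]) hF
  rw [hq] at hiso hinf
  set s' : M ≃ᵢ M := ⟨Equiv.ofBijective s ⟨hs.injective, isometry_surj s hs⟩, hs⟩ with hs'
  have hs'e : ∀ y, s' y = s y := fun y => rfl
  refine ⟨s', hs'e, ?_, hx, ?_⟩
  · have ht : InfTriv (c.ψ c.x₀) (s'.trans s') := by
      rw [hc2]
      refine ⟨?_, hinf⟩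
      change s (s x) = x
      rw [hx, hx]
    exact infTriv_eq_id G c (s'.trans s') ht
  · obtain ⟨ε, hε, h⟩ := hiso
    exact ⟨ε, hε, fun y hy hfy => h y hy hfy⟩

end Riem

end Pool.Agent.K1H56.Nag
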