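import Pool.Agent.K1H56.Nag.Mid

/-! Isometries with trivial derivative at a fixed point are trivial. -/

set_option autoImplicit false
set_option maxHeartbeats 4000000

namespace Pool.Agent.K1H56.Nag

open Pool.Agent.Helper381 Metric Set

universe u v

section

variable {M : Type u} {E : Type v} [MetricSpace M] [NormedAddCommGroup E] [NormedSpace ℝ E]

/-- `g` fixes `q` and moves points near `q` by little compared with their distance to `q` -/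
def InfTriv (q : M) (g : M ≃ᵢ M) : Prop :=
  g q = q ∧ ∀ ε > 0, ∃ δ > 0, ∀ y, dist q y < δ → dist y (g y) ≤ ε * dist q y

theorem InfTriv.mul {q : M} {g h : M ≃ᵢ M} (hg : InfTriv q g) (hh : InfTriv q h) :
    InfTriv q (g.trans h) := by
  refine ⟨by simp [hg.1, hh.1], fun ε hε => ?_⟩
  obtain ⟨δ, hδ, h1⟩ := hg.2 (ε / 2) (by linarith)
  obtain ⟨δ', hδ', h2⟩ := hh.2 (ε / 2) (by linarith)
  refine ⟨min δ δ', lt_min hδ hδ', fun y hy => ?_⟩
  have a1 := h1 y (lt_of_lt_of_le hy (min_le_left _ _))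
  have a2 := h2 y (lt_of_lt_of_le hy (min_le_right _ _))
  have a3 := dist_triangle y (h y) (h (g y))
  rw [h.isometry.dist_eq] at a3
  change dist y (h (g y)) ≤ _
  linarith

theorem InfTriv.symm {q : M} {g : M ≃ᵢ M} (hg : InfTriv q g) : InfTriv q g.symm := by
  refine ⟨by rw [IsometryEquiv.symm_apply_eq, hg.1], fun ε hε => ?_⟩
  obtain ⟨δ, hδ, h1⟩ := hg.2 ε hε
  refine ⟨δ, hδ, fun y hy => ?_⟩
  have a1 := h1 y hy
  have : dist y (g.symm y) = dist y (g y) := by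
    rw [← g.isometry.dist_eq y (g.symm y), g.apply_symm_apply, dist_comm]
  rwa [this]

variable (M E) in
/-- chart data -/
structure NC where
  x₀ : E
  φ : M → E
  ψ : E → M
  ρ : ℝ
  K : ℝ
  L : ℝ
  ρpos : 0 < ρ
  Knn : 0 ≤ K
  L1 : 1 ≤ L
  φψ : ∀ u ∈ ball x₀ ρ, φ (ψ u) = u
  dle : ∀ u ∈ ball x₀ ρ, ∀ v ∈ ball x₀ ρ, dist (ψ u) (ψ v) ≤ L * ‖v - u‖
  nle : ∀ u ∈ ball x₀ ρ, ∀ v ∈ ball x₀ ρ, ‖v - u‖ ≤ L * dist (ψ u) (ψ v)
  inc : ∀ y, dist (ψ x₀) y < ρ → ∃ w, ψ w = y ∧ ‖w - x₀‖ ≤ L * dist (ψ x₀) y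
  mid : ∀ u ∈ ball x₀ ρ, ∀ v ∈ ball x₀ ρ, ∀ m : M,
      dist (ψ u) m = dist (ψ u) (ψ v) / 2 → dist m (ψ v) = dist (ψ u) (ψ v) / 2 →
      ∃ w, ψ w = m ∧ ‖w - (1 / 2 : ℝ) • (u + v)‖ ≤ K * (‖u - v‖ * √‖u - v‖)

theorem exists_NC (c : Loc M E)
    (hmid : ∀ x y : M, ∃ m : M, dist x m = dist x y / 2 ∧ dist m y = dist x y / 2) :
    ∃ N : NC M E, N.x₀ = c.x₀ ∧ N.φ = c.φ ∧ N.ψ = c.ψ := by
  obtain ⟨ρ, hρ, K, hK, h1, h2, h3⟩ := mid_est c hmid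
  have hb : ball c.x₀ ρ ⊆ ball c.x₀ c.r₁ := ball_subset_ball h1
  refine ⟨⟨c.x₀, c.φ, c.ψ, ρ, K, c.L, hρ, hK, c.one_le_L, fun u hu => c.φψ u (c.ball_sub (hb hu)),
    fun u hu v hv => c.dist_le (hb hu) (hb hv), fun u hu v hv => c.norm_le (hb hu) (hb hv),
    fun y hy => ?_, fun u hu v hv m hm hm' => ?_⟩, rfl, rfl, rfl⟩
  · obtain ⟨w, _, hw1, hw2⟩ := c.in_chart (mem_ball_self c.r₁pos) (hy.trans h2)
    exact ⟨w, hw1, hw2⟩
  · obtain ⟨w, _, hw1, hw2⟩ := h3 u hu v hv m hm hm'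
    exact ⟨w, hw1, hw2⟩

theorem NC.mem_of (N : NC M E) {P A : E} {h : ℝ} (hP : ‖P - N.x₀‖ + h < N.ρ) (hA : ‖A - P‖ ≤ h) :
    A ∈ ball N.x₀ N.ρ := by
  rw [mem_ball, dist_eq_norm]
  have : A - N.x₀ = (A - P) + (P - N.x₀) := by abel
  rw [this]
  refine lt_of_le_of_lt (norm_add_le _ _) ?_
  linarith

theorem NC.chain (N : NC M E) {P U : E} {h : ℝ} (hh : 0 ≤ h) (hP : ‖P - N.x₀‖ + h < N.ρ)
    (hU : ‖U - P‖ ≤ h) (hs : 20 * N.K * √h ≤ 1) (y : ℕ → M) (y0 : y 0 = N.ψ U)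
    (hy : ∀ n, dist (N.ψ P) (y (n + 1)) = dist (N.ψ P) (y n) / 2 ∧
      dist (y (n + 1)) (y n) = dist (N.ψ P) (y n) / 2) :
    ∃ A : ℕ → E, A 0 = U ∧ (∀ n, N.ψ (A n) = y n) ∧ (∀ n, ‖A n - P‖ ≤ h) ∧
      ∀ n, ‖(2 : ℝ) ^ n • (A n - P) - (U - P)‖ ≤ 20 * N.K * (h * √h) := by
  have hPm : P ∈ ball N.x₀ N.ρ := N.mem_of hP (by simpa using hh)
  have hstep : ∀ n, ∀ a, N.ψ a = y n → ‖a - P‖ ≤ h → ∃ w, N.ψ w = y (n + 1) ∧ ‖w - P‖ ≤ h ∧
      ‖w - (1 / 2 : ℝ) • (a + P)‖ ≤ N.K * (‖a - P‖ * √‖a - P‖) := by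
    intro n a ha haP
    have ham := N.mem_of hP haP
    obtain ⟨w, hw1, hw2⟩ := N.mid P hPm a ham (y (n + 1)) (by rw [ha]; exact (hy n).1)
      (by rw [ha]; exact (hy n).2)
    rw [norm_sub_rev P a, add_comm P a] at hw2
    refine ⟨w, hw1, ?_, hw2⟩
    have e1 : √‖a - P‖ ≤ √h := Real.sqrt_le_sqrt haP
    have e2 : N.K * (‖a - P‖ * √‖a - P‖) ≤ h / 20 := by
      calc N.K * (‖a - P‖ * √‖a - P‖) ≤ N.K * (h * √h) := by
            have := N.Knn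
            gcongr
        _ = (20 * N.K * √h) * h / 20 := by ring
        _ ≤ 1 * h / 20 := by gcongr
        _ = h / 20 := by ring
    have e3 : w - P = (w - (1 / 2 : ℝ) • (a + P)) + (1 / 2 : ℝ) • (a - P) := by module
    rw [e3]
    refine (norm_add_le _ _).trans ?_
    rw [norm_smul, Real.norm_of_nonneg (by norm_num)]
    linarith
  have hex : ∀ n, ∃ a, N.ψ a = y n ∧ ‖a - P‖ ≤ h := by
    intro n
    induction n with
    | zero => exact ⟨U, y0.symm, hU⟩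
    | succ n ih =>
      obtain ⟨a, ha, haP⟩ := ih
      obtain ⟨w, hw1, hw2, _⟩ := hstep n a ha haP
      exact ⟨w, hw1, hw2⟩
  have huniq : ∀ n a, N.ψ a = y n → ‖a - P‖ ≤ h → N.φ (y n) = a := by
    intro n a ha haP
    rw [← ha]
    exact N.φψ a (N.mem_of hP haP)
  have h0 : N.φ (y 0) = U := huniq 0 U y0.symm hU
  have hall : ∀ n, N.ψ (N.φ (y n)) = y n ∧ ‖N.φ (y n) - P‖ ≤ h := by
    intro n
    obtain ⟨a, ha, haP⟩ := hex n
    rw [huniq n a ha haP]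
    exact ⟨ha, haP⟩
  refine ⟨fun n => N.φ (y n), h0, fun n => (hall n).1, fun n => (hall n).2, ?_⟩
  have hd := dyadic P (fun n => N.φ (y n)) N.Knn hh (hall 0).2 hs (by
    intro n
    obtain ⟨w, hw1, hw2, hw3⟩ := hstep n _ (hall n).1 (hall n).2
    change ‖N.φ (y (n + 1)) - _‖ ≤ _
    rw [huniq (n + 1) w hw1 hw2]
    exact hw3)
  intro n
  have := hd n
  simp only [h0] at this
  exact this

/-- dyadic sequence of midpoints -/
theorem exists_chain (hmid : ∀ x y : M, ∃ m : M, dist x m = dist x y / 2 ∧ dist m y = dist x y / 2)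
    (p y₀ : M) : ∃ y : ℕ → M, y 0 = y₀ ∧ ∀ n, dist p (y (n + 1)) = dist p (y n) / 2 ∧
      dist (y (n + 1)) (y n) = dist p (y n) / 2 := by
  choose m hm using hmid
  exact ⟨fun n => Nat.rec y₀ (fun _ z => m p z) n, rfl, fun n => hm _ _⟩

theorem chain_dist {p : M} {y : ℕ → M} (hy : ∀ n, dist p (y (n + 1)) = dist p (y n) / 2 ∧
      dist (y (n + 1)) (y n) = dist p (y n) / 2) (n : ℕ) :
    (2 : ℝ) ^ n * dist p (y n) = dist p (y 0) := by
  induction n with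
  | zero => simp
  | succ n ih => rw [(hy n).1, ← ih, pow_succ]; ring

theorem chain_map {p : M} {y : ℕ → M} (g : M ≃ᵢ M) (hg : g p = p)
    (hy : ∀ n, dist p (y (n + 1)) = dist p (y n) / 2 ∧
      dist (y (n + 1)) (y n) = dist p (y n) / 2) (n : ℕ) :
    dist p (g (y (n + 1))) = dist p (g (y n)) / 2 ∧
      dist (g (y (n + 1))) (g (y n)) = dist p (g (y n)) / 2 := by
  have h1 : ∀ z, dist p (g z) = dist p z := fun z => by
    conv_lhs => rw [← hg]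
    exact g.isometry.dist_eq _ _
  rw [h1, h1, g.isometry.dist_eq]
  exact hy n

theorem NC.S1 (N : NC M E)
    (hmid : ∀ x y : M, ∃ m : M, dist x m = dist x y / 2 ∧ dist m y = dist x y / 2) :
    ∃ ρ₁ > 0, ∃ C ≥ 0, ∀ g : M ≃ᵢ M, InfTriv (N.ψ N.x₀) g → ∀ h, 0 ≤ h → h < ρ₁ →
      ∀ u, ‖u - N.x₀‖ ≤ h → ∃ u', N.ψ u' = g (N.ψ u) ∧ ‖u' - u‖ ≤ C * (h * √h) := by
  have hL := N.L1
  have hK := N.Knn
  have hρ := N.ρpos
  refine ⟨min (N.ρ / (2 * N.L ^ 2)) ((1 / (20 * N.K * N.L + 1)) ^ 2), by positivity,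
    40 * N.K * N.L ^ 3, by positivity, ?_⟩
  intro g hg h hh0 hh u hu
  have hh1 : h < N.ρ / (2 * N.L ^ 2) := hh.trans_le (min_le_left _ _)
  have hh2 : h < (1 / (20 * N.K * N.L + 1)) ^ 2 := hh.trans_le (min_le_right _ _)
  rw [lt_div_iff₀ (by positivity)] at hh1
  have hsq : √h ≤ 1 / (20 * N.K * N.L + 1) := by
    rw [Real.sqrt_le_left (by positivity)]
    exact hh2.le
  rw [le_div_iff₀ (by positivity)] at hsq
  have hs0 : 0 ≤ √h := Real.sqrt_nonneg _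
  set h' := N.L ^ 2 * h with hh'
  have hh'0 : 0 ≤ h' := by positivity
  have hsq' : √h' = N.L * √h := by
    rw [hh', Real.sqrt_mul (by positivity), Real.sqrt_sq (by linarith)]
  have hL2 : 1 ≤ N.L ^ 2 := one_le_pow₀ hL
  have hhh' : h ≤ h' := by rw [hh']; nlinarith
  have hs' : 20 * N.K * √h' ≤ 1 := by rw [hsq']; nlinarith
  have hLh : N.L * h ≤ h' := by rw [hh']; nlinarith
  have hP : ‖N.x₀ - N.x₀‖ + h' < N.ρ := by simp only [sub_self, norm_zero, zero_add]; linarith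
  have hx₀ : N.x₀ ∈ ball N.x₀ N.ρ := mem_ball_self N.ρpos
  have hum : u ∈ ball N.x₀ N.ρ := N.mem_of hP (hu.trans hhh')
  have hdu : dist (N.ψ N.x₀) (N.ψ u) ≤ N.L * h := by
    refine (N.dle _ hx₀ _ hum).trans ?_
    gcongr
  have hgd : ∀ z, dist (N.ψ N.x₀) (g z) = dist (N.ψ N.x₀) z := fun z => by
    conv_lhs => rw [← hg.1]
    exact g.isometry.dist_eq _ _
  obtain ⟨u', hu'1, hu'2⟩ := N.inc (g (N.ψ u)) (by rw [hgd]; linarith)
  have hu'3 : ‖u' - N.x₀‖ ≤ h' := by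
    refine hu'2.trans ?_
    rw [hgd]
    calc N.L * dist (N.ψ N.x₀) (N.ψ u) ≤ N.L * (N.L * h) := by gcongr
      _ = h' := by rw [hh']; ring
  refine ⟨u', hu'1, ?_⟩
  obtain ⟨y, y0, hy⟩ := exists_chain hmid (N.ψ N.x₀) (N.ψ u)
  obtain ⟨A, A0, A1, A2, A3⟩ := N.chain hh'0 hP (hu.trans hhh') hs' y y0 hy
  obtain ⟨B, B0, B1, B2, B3⟩ := N.chain hh'0 hP hu'3 hs' (fun n => g (y n))
    (by simp only [y0]; exact hu'1.symm) (fun n => chain_map g hg.1 hy n)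
  have e0 : 40 * N.K * N.L ^ 3 * (h * √h) = 20 * N.K * (h' * √h') + 20 * N.K * (h' * √h') := by
    rw [hsq', hh']; ring
  rw [e0]
  apply le_of_forall_pos_le_add
  intro ε hε
  obtain ⟨δ, hδ, hgδ⟩ := hg.2 (ε / (N.L * (dist (N.ψ N.x₀) (y 0) + 1))) (by positivity)
  obtain ⟨n, hn⟩ := exists_pow_lt_of_lt_one (show 0 < δ / (dist (N.ψ N.x₀) (y 0) + 1) by positivity)
    (show (1 / 2 : ℝ) < 1 by norm_num)
  have h2n : (0 : ℝ) < 2 ^ n := by positivity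
  have hcd := chain_dist hy n
  have hlt : dist (N.ψ N.x₀) (y n) < δ := by
    rw [lt_div_iff₀ (by positivity)] at hn
    have e1 : dist (N.ψ N.x₀) (y n) = (1 / 2) ^ n * dist (N.ψ N.x₀) (y 0) := by
      rw [← hcd, one_div, inv_pow]; field_simp
    rw [e1]
    have : (0 : ℝ) ≤ (1 / 2) ^ n := by positivity
    linarith
  have hgy := hgδ _ hlt
  have hnle := N.nle (A n) (N.mem_of hP (A2 n)) (B n) (N.mem_of hP (B2 n))
  rw [A1 n, B1 n] at hnle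
  have hfin : (2 : ℝ) ^ n * ‖B n - A n‖ ≤ ε := by
    have hd0 : 0 ≤ dist (N.ψ N.x₀) (y 0) := dist_nonneg
    calc (2 : ℝ) ^ n * ‖B n - A n‖ ≤ 2 ^ n * (N.L * (ε / (N.L * (dist (N.ψ N.x₀) (y 0) + 1)) *
            dist (N.ψ N.x₀) (y n))) := by
          gcongr
          exact hnle.trans (by gcongr)
      _ = ε * ((2 : ℝ) ^ n * dist (N.ψ N.x₀) (y n)) / (dist (N.ψ N.x₀) (y 0) + 1) := by
          field_simp
      _ = ε * dist (N.ψ N.x₀) (y 0) / (dist (N.ψ N.x₀) (y 0) + 1) := by rw [hcd]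
      _ ≤ ε := by
          rw [div_le_iff₀ (by positivity)]
          nlinarith
  have hdec : u' - u = -((2 : ℝ) ^ n • (B n - N.x₀) - (u' - N.x₀)) +
      ((2 : ℝ) ^ n • (A n - N.x₀) - (u - N.x₀)) + (2 : ℝ) ^ n • (B n - A n) := by module
  rw [hdec]
  refine (norm_add₃_le).trans ?_
  rw [norm_neg, norm_smul, Real.norm_of_nonneg h2n.le]
  linarith [A3 n, B3 n]

theorem NC.S2 (N : NC M E)
    (hmid : ∀ x y : M, ∃ m : M, dist x m = dist x y / 2 ∧ dist m y = dist x y / 2) :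
    ∃ ρ₂ > 0, ∀ P, ‖P - N.x₀‖ < ρ₂ → (∀ g, InfTriv (N.ψ N.x₀) g → g (N.ψ P) = N.ψ P) →
      ∀ W, ‖W - P‖ < ρ₂ → ∀ g, InfTriv (N.ψ N.x₀) g →
        dist (N.ψ W) (g (N.ψ W)) ≤ 1 / 2 * dist (N.ψ P) (N.ψ W) := by
  obtain ⟨ρ₁, hρ₁, C, hC, hS1⟩ := N.S1 hmid
  have hL := N.L1
  have hK := N.Knn
  have hρ := N.ρpos
  set h := min (min (ρ₁ / 2) (N.ρ / 4)) ((1 / (6 * N.L ^ 2 * (80 * N.K + C) + 20 * N.K + 3 * C + 1)) ^ 2)
    with hh
  have hh0 : 0 < h := by positivity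
  have hh1 : h < ρ₁ := by
    have : h ≤ ρ₁ / 2 := (min_le_left _ _).trans (min_le_left _ _)
    linarith
  have hh2 : h ≤ N.ρ / 4 := (min_le_left _ _).trans (min_le_right _ _)
  have hsq : √h ≤ 1 / (6 * N.L ^ 2 * (80 * N.K + C) + 20 * N.K + 3 * C + 1) := by
    rw [Real.sqrt_le_left (by positivity)]
    exact min_le_right _ _
  rw [le_div_iff₀ (by positivity)] at hsq
  have hs0 : 0 ≤ √h := Real.sqrt_nonneg _
  have k1 : 0 ≤ √h * N.K := by positivity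
  have k2 : 0 ≤ √h * C := by positivity
  have k3 : 0 ≤ √h * (N.L ^ 2 * (80 * N.K + C)) := by positivity
  have hs1 : 20 * N.K * √h ≤ 1 := by nlinarith
  have hs2 : 3 * C * √h ≤ 1 := by nlinarith
  have hs3 : 6 * N.L ^ 2 * (80 * N.K + C) * √h ≤ 1 := by nlinarith
  clear_value h
  refine ⟨h / 3, by positivity, ?_⟩
  intro P hP hfix W hW g hg
  set v := W - P with hv
  rcases eq_or_ne v 0 with hv0 | hv0
  · have : W = P := by rw [← sub_eq_zero]; exact hv0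
    rw [this, hfix g hg]
    simp
  have hvpos : 0 < ‖v‖ := norm_pos_iff.mpr hv0
  -- choose the scale
  have hex : ∃ n : ℕ, h / 3 ≤ 2 ^ n * ‖v‖ := by
    obtain ⟨n, hn⟩ := pow_unbounded_of_one_lt (h / 3 / ‖v‖) (show (1 : ℝ) < 2 by norm_num)
    exact ⟨n, by rw [div_lt_iff₀ hvpos] at hn; exact hn.le⟩
  classical
  set n := Nat.find hex with hn
  have hn1 : h / 3 ≤ 2 ^ n * ‖v‖ := Nat.find_spec hex
  have hn2 : 2 ^ n * ‖v‖ ≤ 2 * (h / 3) := by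
    rcases Nat.eq_zero_or_pos n with h0 | h0
    · rw [h0]; simp; linarith
    · have := Nat.find_min hex (m := n - 1) (by omega)
      push Not at this
      have e : (2 : ℝ) ^ n = 2 * 2 ^ (n - 1) := by
        rw [← pow_succ']; congr 1; omega
      rw [e]; linarith
  clear_value n
  have h2n : (0 : ℝ) < 2 ^ n := by positivity
  set X := P + (2 : ℝ) ^ n • v with hX
  have hXP : ‖X - P‖ ≤ 2 * (h / 3) := by
    rw [hX, add_sub_cancel_left, norm_smul, Real.norm_of_nonneg h2n.le]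
    exact hn2
  have hXx : ‖X - N.x₀‖ ≤ h := by
    have : X - N.x₀ = (X - P) + (P - N.x₀) := by abel
    rw [this]
    refine (norm_add_le _ _).trans ?_
    linarith
  obtain ⟨X', hX'1, hX'2⟩ := hS1 g hg h hh0.le hh1 X hXx
  have hX'3 : ‖X' - X‖ ≤ h / 3 := by
    refine hX'2.trans ?_
    nlinarith
  have hX'P : ‖X' - P‖ ≤ h := by
    have : X' - P = (X' - X) + (X - P) := by abel
    rw [this]
    refine (norm_add_le _ _).trans ?_
    linarith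
  have hPρ : ‖P - N.x₀‖ + h < N.ρ := by linarith
  obtain ⟨y, y0, hy⟩ := exists_chain hmid (N.ψ P) (N.ψ X)
  obtain ⟨A, A0, A1, A2, A3⟩ := N.chain hh0.le hPρ (by linarith) hs1 y y0 hy
  obtain ⟨B, B0, B1, B2, B3⟩ := N.chain hh0.le hPρ hX'P hs1 (fun n => g (y n))
    (by simp only [y0]; exact hX'1.symm) (fun n => chain_map g (hfix g hg) hy n)
  have hAW : 2 ^ n * ‖A n - W‖ ≤ 20 * N.K * (h * √h) := by
    have e : (2 : ℝ) ^ n • (A n - W) = (2 : ℝ) ^ n • (A n - P) - (X - P) := by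
      rw [hX, hv]; module
    have := A3 n
    rw [← e, norm_smul, Real.norm_of_nonneg h2n.le] at this
    exact this
  have hBA : 2 ^ n * ‖B n - A n‖ ≤ 40 * N.K * (h * √h) + C * (h * √h) := by
    have e : (2 : ℝ) ^ n • (B n - A n) = ((2 : ℝ) ^ n • (B n - P) - (X' - P)) +
        -((2 : ℝ) ^ n • (A n - P) - (X - P)) + (X' - X) := by module
    have h1 : ‖(2 : ℝ) ^ n • (B n - A n)‖ ≤ 40 * N.K * (h * √h) + C * (h * √h) := by
      rw [e]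
      refine (norm_add₃_le).trans ?_
      rw [norm_neg]
      linarith [A3 n, B3 n]
    rwa [norm_smul, Real.norm_of_nonneg h2n.le] at h1
  have hWm : W ∈ ball N.x₀ N.ρ := N.mem_of hPρ (by linarith)
  have hPm : P ∈ ball N.x₀ N.ρ := N.mem_of hPρ (by simpa using hh0.le)
  have hAm := N.mem_of hPρ (A2 n)
  have hBm := N.mem_of hPρ (B2 n)
  have t1 : dist (N.ψ W) (y n) ≤ N.L * ‖A n - W‖ := by
    rw [← A1 n]; exact N.dle _ hWm _ hAm
  have t2 : dist (y n) (g (y n)) ≤ N.L * ‖B n - A n‖ := by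
    have := N.dle _ hAm _ hBm
    rw [A1 n, B1 n] at this
    exact this
  have t3 : dist (g (y n)) (g (N.ψ W)) = dist (N.ψ W) (y n) := by
    rw [g.isometry.dist_eq, dist_comm]
  have t4 := dist_triangle4 (N.ψ W) (y n) (g (y n)) (g (N.ψ W))
  rw [t3] at t4
  have t5 : 2 ^ n * dist (N.ψ W) (g (N.ψ W)) ≤ N.L * ((80 * N.K + C) * (h * √h)) := by
    calc 2 ^ n * dist (N.ψ W) (g (N.ψ W)) ≤
          2 ^ n * (N.L * ‖A n - W‖ + N.L * ‖B n - A n‖ + N.L * ‖A n - W‖) := by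
          gcongr; linarith
      _ = N.L * (2 * (2 ^ n * ‖A n - W‖) + 2 ^ n * ‖B n - A n‖) := by ring
      _ ≤ N.L * (2 * (20 * N.K * (h * √h)) + (40 * N.K * (h * √h) + C * (h * √h))) := by
          gcongr
      _ = N.L * ((80 * N.K + C) * (h * √h)) := by ring
  have t6 : ‖v‖ ≤ N.L * dist (N.ψ P) (N.ψ W) := N.nle _ hPm _ hWm
  have t7 : 2 ^ n * dist (N.ψ W) (g (N.ψ W)) ≤ 2 ^ n * (1 / 2 * dist (N.ψ P) (N.ψ W)) := by
    have hd0 : 0 ≤ dist (N.ψ P) (N.ψ W) := dist_nonneg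
    calc 2 ^ n * dist (N.ψ W) (g (N.ψ W)) ≤ N.L * ((80 * N.K + C) * (h * √h)) := t5
      _ = (N.L * (80 * N.K + C) * √h) * 3 * (h / 3) := by ring
      _ ≤ (N.L * (80 * N.K + C) * √h) * 3 * (2 ^ n * ‖v‖) := by gcongr
      _ ≤ (N.L * (80 * N.K + C) * √h) * 3 * (2 ^ n * (N.L * dist (N.ψ P) (N.ψ W))) := by gcongr
      _ = (6 * N.L ^ 2 * (80 * N.K + C) * √h) * (2 ^ n * (1 / 2 * dist (N.ψ P) (N.ψ W))) := by ring
      _ ≤ 1 * (2 ^ n * (1 / 2 * dist (N.ψ P) (N.ψ W))) := by gcongr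
      _ = _ := one_mul _
  exact le_of_mul_le_mul_left t7 h2n

end

end Pool.Agent.K1H56.Nag
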