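import Pool.Agent.K1H56.Nag.Triv

/-! Isometries with trivial derivative at a fixed point are trivial: conclusion. -/

set_option autoImplicit false
set_option maxHeartbeats 4000000

namespace Pool.Agent.K1H56.Nag

open Pool.Agent.Helper381 Metric Set

universe u v

section

variable {M : Type u} {E : Type v} [MetricSpace M] [NormedAddCommGroup E] [NormedSpace ℝ E]

/-- the centre of a small orbit is a fixed point -/
theorem center {R : ℝ} (G : Geo M E R) [CompactSpace M] (H : Set (M ≃ᵢ M))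
    (hone : IsometryEquiv.refl M ∈ H)
    (hmul : ∀ g ∈ H, ∀ h ∈ H, g.trans h ∈ H) (hsymm : ∀ g ∈ H, g.symm ∈ H)
    {w : M} {D : ℝ} (hD : D < R) (h : ∀ g ∈ H, dist w (g w) ≤ D) :
    ∃ p, (∀ g ∈ H, g p = p) ∧ dist w p ≤ D := by
  have : Nonempty H := ⟨⟨_, hone⟩⟩
  have : Nonempty M := ⟨w⟩
  set f : M → ℝ := fun z => ⨆ g : H, dist z (g.1 w) with hf
  have hbdd : ∀ z, BddAbove (range fun g : H => dist z (g.1 w)) := by
    intro z
    refine ⟨Metric.diam (univ : Set M), ?_⟩
    rintro _ ⟨g, rfl⟩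
    exact Metric.dist_le_diam_of_mem isCompact_univ.isBounded (mem_univ _) (mem_univ _)
  have hle : ∀ z (g : H), dist z (g.1 w) ≤ f z := fun z g => le_ciSup (hbdd z) g
  have hf0 : ∀ z, 0 ≤ f z := fun z => dist_nonneg.trans (hle z ⟨_, hone⟩)
  have hlip : LipschitzWith 1 f := by
    apply LipschitzWith.of_le_add
    intro x y
    apply ciSup_le
    intro g
    have := dist_triangle x y (g.1 w)
    linarith [hle y g]
  obtain ⟨p, -, hp⟩ := isCompact_univ.exists_isMinOn univ_nonempty hlip.continuous.continuousOn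
  have hp' : ∀ z, f p ≤ f z := fun z => hp (mem_univ z)
  have hfw : f w ≤ D := ciSup_le fun g => h g.1 g.2
  have hfp : f p ≤ D := (hp' w).trans hfw
  have hinv : ∀ g ∈ H, ∀ z, f (g z) ≤ f z := by
    intro g hg z
    apply ciSup_le
    intro k
    have h1 : dist (g z) (k.1 w) = dist z ((k.1.trans g.symm) w) := by
      rw [← g.symm.isometry.dist_eq]
      simp
    rw [h1]
    exact hle z ⟨_, hmul _ k.2 _ (hsymm g hg)⟩
  refine ⟨p, fun g hg => ?_, ?_⟩
  · by_contra hne
    obtain ⟨c, hc⟩ := G.chart w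
    have hmem : ∀ z, f z ≤ D → z ∈ c.W := by
      intro z hz
      apply hc
      rw [mem_ball]
      exact lt_of_le_of_lt ((hle z ⟨_, hone⟩).trans hz) hD
    have hpW := hmem p hfp
    have hgW := hmem (g p) ((hinv g hg p).trans hfp)
    have hQ := c.Q_pos_of_ne hgW hpW hne
    have horb : ∀ k : H, k.1 w ∈ c.W := by
      intro k
      apply hc
      rw [mem_ball, dist_comm]
      exact lt_of_le_of_lt (h k.1 k.2) hD
    have hsq : ∀ k : H, dist (c.mid (g p) p) (k.1 w) ≤
        √(f p ^ 2 - 3 / 16 * c.Q (c.φ (g p) - c.φ p)) := by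
      intro k
      apply Real.le_sqrt_of_sq_le
      have h1 := c.sc' (horb k) hgW hpW
      rw [dist_comm (k.1 w) (c.mid (g p) p), dist_comm (k.1 w) (g p), dist_comm (k.1 w) p] at h1
      have h2 : dist p (k.1 w) ≤ f p := hle p k
      have h3 : dist (g p) (k.1 w) ≤ f p := (hle (g p) k).trans (hinv g hg p)
      have h4 : dist p (k.1 w) ^ 2 ≤ f p ^ 2 := by gcongr
      have h5 : dist (g p) (k.1 w) ^ 2 ≤ f p ^ 2 := by gcongr
      linarith
    have h6 : f (c.mid (g p) p) ≤ √(f p ^ 2 - 3 / 16 * c.Q (c.φ (g p) - c.φ p)) := ciSup_le hsq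
    have h7 := (hp' (c.mid (g p) p)).trans h6
    have h8 : 0 ≤ f p ^ 2 - 3 / 16 * c.Q (c.φ (g p) - c.φ p) := by
      have h1 := c.sc' (horb ⟨_, hone⟩) hgW hpW
      have h2 : dist p w ≤ f p := hle p ⟨_, hone⟩
      have h3 : dist (g p) w ≤ f p := (hle (g p) ⟨_, hone⟩).trans (hinv g hg p)
      have h4 : dist p w ^ 2 ≤ f p ^ 2 := by gcongr
      have h5 : dist (g p) w ^ 2 ≤ f p ^ 2 := by gcongr
      change dist w _ ^ 2 ≤ (dist w _ ^ 2 + dist w _ ^ 2) / 2 - _ at h1
      rw [dist_comm w (g p), dist_comm w p] at h1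
      have h6 := sq_nonneg (dist w (c.mid (g p) p))
      linarith
    have h9 : f p ^ 2 ≤ f p ^ 2 - 3 / 16 * c.Q (c.φ (g p) - c.φ p) := by
      have := pow_le_pow_left₀ (hf0 p) h7 2
      rwa [Real.sq_sqrt h8] at this
    linarith
  · rw [dist_comm]
    exact (hle p ⟨_, hone⟩).trans hfp

/-- An isometry of a connected compact space with trivial derivative at a fixed point is the
identity. -/
theorem infTriv_eq_id {R : ℝ} (G : Geo M E R) [CompactSpace M] [PreconnectedSpace M] (c : Loc M E)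
    (t : M ≃ᵢ M) (ht : InfTriv (c.ψ c.x₀) t) : ∀ y, t y = y := by
  obtain ⟨N, hN1, hN2, hN3⟩ := exists_NC c G.midpt
  rw [← hN1, ← hN3] at ht
  obtain ⟨ρ₂, hρ₂, hS2⟩ := N.S2 G.midpt
  have hL := N.L1
  have hR := G.Rpos
  have hρ := N.ρpos
  set q := N.ψ N.x₀ with hq
  have hqt : t q = q := ht.1
  set F : Set M := {p | ∀ g, InfTriv q g → g p = p} with hF
  have hFc : IsClosed F := by
    have : F = ⋂ g : {g : M ≃ᵢ M // InfTriv q g}, {p | g.1 p = p} := by
      ext p; simp [hF]
    rw [this]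
    exact isClosed_iInter fun g => isClosed_eq g.1.continuous continuous_id
  have hqF : q ∈ F := fun g hg => hg.1
  apply G.eq_id t (x := q)
  refine ⟨min (N.ρ / 3) (min (ρ₂ / (3 * N.L)) R), by positivity, ?_⟩
  intro y hy
  have hy1 : dist q y < N.ρ / 3 := hy.trans_le (min_le_left _ _)
  have hy2 : dist q y < ρ₂ / (3 * N.L) := hy.trans_le ((min_le_right _ _).trans (min_le_left _ _))
  have hy3 : dist q y < R := hy.trans_le ((min_le_right _ _).trans (min_le_right _ _))
  rw [lt_div_iff₀ (by positivity)] at hy2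
  have hd0 : 0 ≤ dist q y := dist_nonneg
  obtain ⟨p, hpF, hpmin⟩ := hFc.isCompact.exists_isMinOn ⟨q, hqF⟩
    (continuous_const.dist continuous_id : Continuous fun z : M => dist y z).continuousOn
  have hpmin' : ∀ z ∈ F, dist y p ≤ dist y z := fun z hz => hpmin hz
  have hyp : dist y p ≤ dist q y := by
    have := hpmin' q hqF
    rwa [dist_comm y q] at this
  have hqp : dist q p ≤ 2 * dist q y := by
    have := dist_triangle q y p
    linarith
  obtain ⟨W, hW1, hW2⟩ := N.inc y (by rw [← hq]; linarith)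
  obtain ⟨P, hP1, hP2⟩ := N.inc p (by rw [← hq]; linarith)
  rw [← hq] at hW2 hP2
  have hP3 : ‖P - N.x₀‖ < ρ₂ := by
    refine lt_of_le_of_lt hP2 ?_
    nlinarith
  have hWP : ‖W - P‖ < ρ₂ := by
    have : W - P = (W - N.x₀) - (P - N.x₀) := by abel
    rw [this]
    refine lt_of_le_of_lt (norm_sub_le _ _) ?_
    nlinarith
  have hcon := hS2 P hP3 (fun g hg => by rw [hP1]; exact hpF g hg) W hWP
  rw [hW1, hP1] at hcon
  obtain ⟨p', hp'1, hp'2⟩ := center G {g | InfTriv q g} (w := y) (D := 1 / 2 * dist p y)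
    ⟨rfl, fun ε hε => ⟨1, one_pos, fun y _ => by
      change dist y y ≤ _
      rw [dist_self]; positivity⟩⟩
    (fun g hg h hh => InfTriv.mul hg hh) (fun g hg => InfTriv.symm hg)
    (by rw [dist_comm]; linarith) hcon
  have h1 := hpmin' p' hp'1
  rw [dist_comm p y] at hp'2
  have h2 : dist y p = 0 := by
    have : 0 ≤ dist y p := dist_nonneg
    linarith
  have h3 : y = p := dist_eq_zero.mp h2
  rw [h3]
  exact hpF t ht

end

end Pool.Agent.K1H56.Nag
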