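import Pool.Agent.TH592.Nag.Bridge
import Pool.Agent.Helper381.Main

/-! Cohomology with field coefficients is dual to homology. -/

set_option autoImplicit false
set_option maxHeartbeats 400000

namespace Pool.Agent.K1H56.Nag

open Pool.Agent.Helper381 hiding bd
open Pool.Agent.TH592.Nag Module CategoryTheory

section

variable {R : Type} [CommRing R] {X : Type} [TopologicalSpace X]

theorem bd_single (n : ℕ) (σ : Sing X (n + 1)) (r : R) :
    bd R X n (Finsupp.single σ r) =
      ∑ i : Fin (n + 2), ((-1 : ℤ) ^ (i : ℕ)) • Finsupp.single (sface n i σ) r := by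
  rw [bd, Finsupp.linearCombination_single, Finset.smul_sum]
  refine Finset.sum_congr rfl fun i _ => ?_
  rw [smul_comm, Finsupp.smul_single, smul_eq_mul, mul_one]

theorem bd_bd (n : ℕ) (c : Sing X (n + 2) →₀ R) : bd R X n (bd R X (n + 1) c) = 0 := by
  apply toC_injective
  rw [map_zero, ← d_toC, ← d_toC]
  have := (KK R X).d_comp_d (n + 2) (n + 1) n
  exact ConcreteCategory.congr_hom this (toC R X (n + 2) c)

theorem bou_le_cyc (n : ℕ) : bou R X n ≤ cyc R X n := by
  rintro _ ⟨c, rfl⟩
  cases n with
  | zero => exact Submodule.mem_top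
  | succ n => exact bd_bd n c

theorem lc_bd (n : ℕ) (f : Sing X n → R) (c : Sing X (n + 1) →₀ R) :
    Finsupp.linearCombination R f (bd R X n c) =
      Finsupp.linearCombination R (altd R (sface (X := X)) n f) c := by
  have h : (Finsupp.linearCombination R f).comp (bd R X n) =
      Finsupp.linearCombination R (altd R (sface (X := X)) n f) := by
    apply Finsupp.lhom_ext'
    intro σ
    apply LinearMap.ext_ring
    simp only [LinearMap.comp_apply, Finsupp.lsingle_apply]
    rw [bd_single, map_sum, Finsupp.linearCombination_single, one_smul, altd_apply]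
    refine Finset.sum_congr rfl fun i _ => ?_
    rw [map_zsmul, Finsupp.linearCombination_single, one_smul]
    have : ((-1 : R) ^ (i : ℕ)) = (((-1 : ℤ) ^ (i : ℕ) : ℤ) : R) := by push_cast; rfl
    rw [this, zsmul_eq_mul]
  exact LinearMap.congr_fun h c

theorem lc_zero {S : Type} (c : S →₀ R) : Finsupp.linearCombination R (0 : S → R) c = 0 := by
  simp

theorem lc_dual {S : Type} (g : (S →₀ R) →ₗ[R] R) :
    Finsupp.linearCombination R (fun σ => g (Finsupp.single σ 1)) = g := by
  apply Finsupp.lhom_ext'
  intro σ
  apply LinearMap.ext_ring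
  simp

end

/-- the projection of cycles to homology -/
noncomputable def pr (R : Type) [CommRing R] (X : Type) [TopologicalSpace X] (n : ℕ) :
    cyc R X n →ₗ[R] Hm R X n := Submodule.mkQ _

/-- functionals on cycles from functionals on homology -/
noncomputable def prc {R : Type} [CommRing R] {X : Type} [TopologicalSpace X] {n : ℕ}
    (F : Hm R X n →ₗ[R] R) : cyc R X n →ₗ[R] R := F.comp (pr R X n)

section

variable (k : Type) [Field k] (X : Type) [TopologicalSpace X] (n : ℕ)

/-- evaluation of cocycles on homology classes -/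
noncomputable def evl (f : LinearMap.ker (altd k (sface (X := X)) n)) : Hm k X n →ₗ[k] k :=
  Submodule.liftQ _ ((Finsupp.linearCombination k f.1).comp (cyc k X n).subtype) (by
    rintro ⟨z, hz⟩ ⟨c, hc⟩
    change bd k X n c = z at hc
    change Finsupp.linearCombination k f.1 z = 0
    have h' : altd k (sface (X := X)) n f.1 = 0 := f.2
    rw [← hc, lc_bd, h', lc_zero])

theorem evl_mk (f : LinearMap.ker (altd k (sface (X := X)) n)) (z : cyc k X n) :
    evl k X n f (Submodule.Quotient.mk z) = Finsupp.linearCombination k f.1 z.1 := rfl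

/-- evaluation as a linear map -/
noncomputable def evL : LinearMap.ker (altd k (sface (X := X)) n) →ₗ[k] (Hm k X n →ₗ[k] k) where
  toFun f := evl k X n f
  map_add' f g := by
    apply LinearMap.ext
    intro q
    obtain ⟨z, rfl⟩ := Submodule.Quotient.mk_surjective _ q
    rw [LinearMap.add_apply, evl_mk, evl_mk, evl_mk]
    change Finsupp.linearCombination k (f.1 + g.1) z.1 = _
    simp only [Finsupp.linearCombination_apply, Finsupp.sum, Pi.add_apply, smul_add,
          Finset.sum_add_distrib]
  map_smul' a f := by
    apply LinearMap.ext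
    intro q
    obtain ⟨z, rfl⟩ := Submodule.Quotient.mk_surjective _ q
    rw [LinearMap.smul_apply, evl_mk, evl_mk]
    change Finsupp.linearCombination k (a • f.1) z.1 = _
    simp only [Finsupp.linearCombination_apply, Finsupp.sum, Pi.smul_apply, Finset.smul_sum]
    refine Finset.sum_congr rfl fun i _ => ?_
    rw [smul_comm]
    rfl

theorem evL_surj : Function.Surjective (evL k X n) := by
  intro F
  let F' : cyc k X n →ₗ[k] k := prc F
  obtain ⟨g, hg⟩ := LinearMap.exists_extend (p := cyc k X n) F'
  have hgf := lc_dual g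
  have hker : altd k (sface (X := X)) n (fun σ => g (Finsupp.single σ 1)) = 0 := by
    funext σ
    have h0 := lc_bd n (fun σ => g (Finsupp.single σ 1)) (Finsupp.single σ (1 : k))
    rw [hgf, Finsupp.linearCombination_single, one_smul] at h0
    rw [← h0]
    have h1 : bd k X n (Finsupp.single σ (1 : k)) ∈ cyc k X n := bou_le_cyc n ⟨_, rfl⟩
    have h2 := LinearMap.congr_fun hg ⟨_, h1⟩
    change g (bd k X n (Finsupp.single σ (1 : k))) = F (Submodule.Quotient.mk ⟨_, h1⟩) at h2
    rw [h2]
    have h3 : (Submodule.Quotient.mk ⟨_, h1⟩ : Hm k X n) = 0 := by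
      rw [Submodule.Quotient.mk_eq_zero]
      exact ⟨_, rfl⟩
    rw [h3, map_zero]
    rfl
  refine ⟨⟨fun σ => g (Finsupp.single σ 1), hker⟩, ?_⟩
  apply LinearMap.ext
  intro q
  obtain ⟨z, rfl⟩ := Submodule.Quotient.mk_surjective _ q
  change Finsupp.linearCombination k (fun σ => g (Finsupp.single σ 1)) z.1 = _
  rw [hgf]
  exact LinearMap.congr_fun hg z

theorem evL_ker : LinearMap.ker (evL k X n) =
    (cobound k (fun n => Sing X n → k) (fun n => altd k (sface (X := X)) n) n).comap
      (LinearMap.ker (altd k (sface (X := X)) n)).subtype := by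
  ext f
  have h1 : f ∈ LinearMap.ker (evL k X n) ↔
      ∀ z ∈ cyc k X n, Finsupp.linearCombination k f.1 z = 0 := by
    rw [LinearMap.mem_ker]
    constructor
    · intro h z hz
      have := LinearMap.congr_fun h (Submodule.Quotient.mk ⟨z, hz⟩)
      exact this
    · intro h
      apply LinearMap.ext
      intro q
      obtain ⟨z, rfl⟩ := Submodule.Quotient.mk_surjective _ q
      exact h z.1 z.2
  rw [h1, Submodule.mem_comap]
  obtain ⟨f, hf⟩ := f
  change _ ↔ f ∈ _
  change (∀ z ∈ cyc k X n, Finsupp.linearCombination k f z = 0) ↔ _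
  cases n with
  | zero =>
    constructor
    · intro h
      change f = 0
      funext σ
      have := h (Finsupp.single σ 1) Submodule.mem_top
      rw [Finsupp.linearCombination_single, one_smul] at this
      exact this
    · intro h z _
      have h' : f = 0 := h
      rw [h', lc_zero]
  | succ n =>
    constructor
    · intro h
      -- factor through the boundary
      have hker2 : LinearMap.ker (bd k X n) ≤ LinearMap.ker (Finsupp.linearCombination k f) :=
        fun z hz => h z hz
      obtain ⟨g, hg⟩ := LinearMap.exists_extend (p := LinearMap.range (bd k X n))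
        ((Submodule.liftQ _ _ hker2).comp ((bd k X n).quotKerEquivRange.symm :
          LinearMap.range (bd k X n) →ₗ[k] _))
      refine ⟨fun σ => g (Finsupp.single σ 1), ?_⟩
      have hgf := lc_dual g
      change altd k (sface (X := X)) n (fun σ => g (Finsupp.single σ 1)) = f
      funext σ
      have h2 := lc_bd n (fun σ => g (Finsupp.single σ 1)) (Finsupp.single σ (1 : k))
      rw [hgf, Finsupp.linearCombination_single, one_smul] at h2
      rw [← h2]
      have h3 := LinearMap.congr_fun hg ⟨bd k X n (Finsupp.single σ 1), ⟨_, rfl⟩⟩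
      have h4 : (bd k X n).quotKerEquivRange.symm ⟨bd k X n (Finsupp.single σ 1), ⟨_, rfl⟩⟩ =
          Submodule.Quotient.mk (Finsupp.single σ 1) := by
        rw [LinearEquiv.symm_apply_eq]
        rfl
      change g (bd k X n (Finsupp.single σ 1)) =
        (Submodule.liftQ _ _ hker2) ((bd k X n).quotKerEquivRange.symm
          ⟨bd k X n (Finsupp.single σ 1), ⟨_, rfl⟩⟩) at h3
      rw [h3, h4]
      change Finsupp.linearCombination k f (Finsupp.single σ 1) = f σ
      simp
    · rintro ⟨g, hg⟩ z hz
      change altd k (sface (X := X)) n g = f at hg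
      change bd k X n z = 0 at hz
      rw [← hg, ← lc_bd, hz, map_zero]

theorem uct : Nonempty (SingCoh k X n ≃ₗ[k] (Hm k X n →ₗ[k] k)) :=
  ⟨(Submodule.quotEquivOfEq _ _ (evL_ker k X n).symm).trans
    ((evL k X n).quotKerEquivOfSurjective (evL_surj k X n))⟩

theorem hm_finite (h : Module.Finite k (SingCoh k X n)) : Module.Finite k (Hm k X n) := by
  obtain ⟨e⟩ := uct k X n
  have h1 : Module.Finite k (Dual k (Hm k X n)) := Module.Finite.equiv e
  exact Module.finite_dual_iff k |>.mp h1

theorem hm_finrank : finrank k (SingCoh k X n) = finrank k (Hm k X n) := by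
  obtain ⟨e⟩ := uct k X n
  rw [e.finrank_eq]
  exact Subspace.dual_finrank_eq

end

end Pool.Agent.K1H56.Nag
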