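import Pool.Agent.Y209.HB.Tools
import Pool.Agent.Y209.HB.Circ

/-! Homology of open subsets of Euclidean space vanishes from the dimension on. -/

set_option autoImplicit false
set_option maxHeartbeats 4000000

namespace Pool.Agent.K1H56.Nag

open Pool.Agent.Y209.HB Set Metric

universe u v w

section

variable {X : Type u} [TopologicalSpace X] {Y : Type v} [TopologicalSpace Y]

/-- acyclicity in degree `n` of a union of disjoint open sets -/
theorem AcO_iUnion' {J : Type w} {W : J → Set X} (hW : ∀ j, IsOpen (W j))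
    (hd : ∀ i j, i ≠ j → Disjoint (W i) (W j)) {m : ℕ} (h : ∀ j, AcO (W j) m) :
    AcO (⋃ j, W j) m := by
  classical
  intro z hz hc
  have hloc : ∀ σ : Sing X m, range σ ⊆ ⋃ j, W j → ∃ j, range σ ⊆ W j := by
    intro σ h
    have hcn : IsPreconnected (Set.range σ) := by
      have : PreconnectedSpace (stdSimplex ℝ (Fin (m + 1))) :=
        Subtype.preconnectedSpace (convex_stdSimplex ℝ (Fin (m + 1))).isPreconnected
      exact isPreconnected_range σ.continuous
    obtain ⟨j, hj⟩ := Set.mem_iUnion.mp (h ⟨Sc.vert m 0, rfl⟩)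
    refine ⟨j, ?_⟩
    refine hcn.subset_left_of_subset_union (v := ⋃ i ∈ {i | i ≠ j}, W i) (hW j)
      (isOpen_biUnion fun i _ => hW i) ?_ ?_ ?_
    · rw [Set.disjoint_iff]
      rintro x ⟨hx, hx'⟩
      simp only [Set.mem_iUnion, Set.mem_ofPred_eq] at hx'
      obtain ⟨i, hi, hx'⟩ := hx'
      exact (Set.disjoint_iff.mp (hd i j hi)) ⟨hx', hx⟩
    · intro x hx
      obtain ⟨i, hi⟩ := Set.mem_iUnion.mp (h hx)
      by_cases hij : i = j
      · left; rw [← hij]; exact hi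
      · right
        simp only [Set.mem_iUnion, Set.mem_ofPred_eq]
        exact ⟨i, hij, hi⟩
    · exact ⟨_, ⟨Sc.vert m 0, rfl⟩, hj⟩
  have hzs : ∀ σ ∈ z.support, ∃ j, range σ ⊆ W j := by
    intro σ hσ
    apply hloc
    exact (Finsupp.mem_supported _ _).mp hz hσ
  choose f hf using hzs
  set F : Finset J := z.support.attach.image (fun s => f s.1 s.2) with hF
  have e : Fin F.card ≃ F := F.equivFin.symm
  have hz' : z ∈ sp (⋃ k : Fin F.card, W (e k).1) m := by
    rw [sp, Finsupp.mem_supported]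
    intro σ hσ
    have h1 : f σ hσ ∈ F :=
      Finset.mem_image_of_mem (fun s : z.support => f s.1 s.2) (Finset.mem_attach _ ⟨σ, hσ⟩)
    refine (hf σ hσ).trans ?_
    have h2 : (e (e.symm ⟨f σ hσ, h1⟩)).1 = f σ hσ := by rw [Equiv.apply_symm_apply]
    rw [← h2]
    exact subset_iUnion (fun k : Fin F.card => W (e k).1) (e.symm ⟨f σ hσ, h1⟩)
  have h3 := AcO_iUnion (W := fun k : Fin F.card => W (e k).1) (fun k => hW _)
    (fun i j hij => hd _ _ (fun h => hij (e.injective (Subtype.ext h)))) (fun k => h _) z hz' hc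
  refine Bd_mono ?_ m h3
  exact iUnion_subset fun k => subset_iUnion W _

/-- every open subset has no homology in degrees at least `m` -/
def PV (Y : Type v) [TopologicalSpace Y] (m : ℕ) : Prop :=
  ∀ W : Set Y, IsOpen W → ∀ n, m ≤ n → AcO W n

theorem PV_of_homeo (e : X ≃ₜ Y) {m : ℕ} (h : PV Y m) : PV X m := by
  intro W hW n hn z hz hc
  let f : C(X, Y) := ⟨e, e.continuous⟩
  let g : C(Y, X) := ⟨e.symm, e.symm.continuous⟩
  have h1 : MapsTo f W (e '' W) := fun x hx => ⟨x, hx, rfl⟩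
  have h2 : MapsTo g (e '' W) W := by
    rintro _ ⟨x, hx, rfl⟩
    change e.symm (e x) ∈ W
    rwa [e.symm_apply_apply]
  have h3 := h (e '' W) (e.isOpenMap W hW) n hn _ (push_mem_sp f h1 hz) (push_mem_Cyc f n z hc)
  have h4 := push_mem_Bd g h2 h3
  rw [push_push] at h4
  have : g.comp f = ContinuousMap.id X := by
    ext x
    exact e.symm_apply_apply x
  rwa [this, push_id] at h4

/-- a slab over `B` -/
theorem AcO_slab {a b : ℝ} (hab : a < b) {B : Set Y} {n : ℕ} (hB : AcO B n) :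
    AcO (Ioo a b ×ˢ B : Set (ℝ × Y)) n := by
  set O : Set (ℝ × Y) := Ioo a b ×ˢ B with hO
  intro z hz hc
  obtain ⟨z', rfl⟩ := exists_lift hz
  have hz' : z' ∈ Cyc _ n := mem_Cyc_of_push _ Subtype.val_injective hc
  let c : ℝ := (a + b) / 2
  have hc1 : a < c := by change a < (a + b) / 2; linarith
  have hc2 : c < b := by change (a + b) / 2 < b; linarith
  let π : C(ℝ × Y, Y) := ⟨Prod.snd, continuous_snd⟩
  let ι : C(Y, ℝ × Y) := ⟨fun y => (c, y), by fun_prop⟩
  let H : C(O × unitInterval, ℝ × Y) :=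
    ⟨fun p => ((1 - (p.2 : ℝ)) * p.1.1.1 + (p.2 : ℝ) * c, p.1.1.2), by fun_prop⟩
  have hH : ∀ p, H p ∈ O := by
    rintro ⟨⟨⟨t, y⟩, ht, hy⟩, s, hs0, hs1⟩
    change t ∈ Ioo a b at ht
    change y ∈ B at hy
    refine ⟨?_, hy⟩
    change (1 - s) * t + s * c ∈ Ioo a b
    exact (convex_Ioo a b) ht ⟨hc1, hc2⟩ (by linarith) hs0 (by ring)
  have h1 := htpyO (sub O) ((ι.comp π).comp (sub O)) H hH (fun x => by
      apply Prod.ext
      · change (1 - (0 : ℝ)) * x.1.1 + (0 : ℝ) * c = x.1.1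
        ring
      · rfl) (fun x => by
      apply Prod.ext
      · change (1 - (1 : ℝ)) * x.1.1 + (1 : ℝ) * c = c
        ring
      · rfl) n hz'
  have h2 : push π n (push (sub O) n z') ∈ Bd B n :=
    hB _ (push_mem_sp π (fun x hx => hx.2) hz) (push_mem_Cyc π n _ hc)
  have h3 := push_mem_Bd ι (O' := O) (fun y hy => ⟨⟨hc1, hc2⟩, hy⟩) h2
  rw [push_push, push_push, ContinuousMap.comp_assoc] at h3
  rw [ContinuousMap.comp_assoc] at h1
  have h4 := Submodule.sub_mem _ h3 h1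
  rwa [sub_sub_cancel] at h4

end

section

variable {Y : Type v} [MetricSpace Y]

theorem PV_prod {m : ℕ} (h : PV Y m) : PV (ℝ × Y) (m + 1) := by
  classical
  intro O hO n hn z hz hc
  obtain ⟨n, rfl⟩ : ∃ k, n = k + 1 := ⟨n - 1, by omega⟩
  have hmn : m ≤ n := by omega
  -- the compact support of the chain
  set K : Set (ℝ × Y) := ⋃ σ ∈ z.support, range σ with hK
  have hKc : IsCompact K := z.support.isCompact_biUnion fun σ _ => isCompact_range σ.continuous
  have hKO : K ⊆ O := by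
    apply iUnion₂_subset
    intro σ hσ
    exact (Finsupp.mem_supported _ _).mp hz hσ
  obtain ⟨ε, hε, hth⟩ := hKc.exists_thickening_subset_open hO hKO
  set δ := ε / 3 with hδ
  have hδ0 : 0 < δ := by positivity
  -- the base sets
  let B : ℤ → Set Y := fun k => {y | ∀ t ∈ Icc (k * δ) ((k + 2) * δ), (t, y) ∈ O}
  have hB : ∀ k, IsOpen (B k) := by
    intro k
    rw [isOpen_iff_mem_nhds]
    intro y hy
    exact isCompact_Icc.eventually_forall_of_forall_eventually
      (P := fun (y : Y) (t : ℝ) => (t, y) ∈ O) (fun t ht => by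
      have h1 : O ∈ nhds (t, y) := hO.mem_nhds (hy t ht)
      have h2 : Filter.Tendsto (fun p : Y × ℝ => (p.2, p.1)) (nhds (y, t)) (nhds (t, y)) :=
        (continuous_snd.prodMk continuous_fst).tendsto _
      exact h2 h1)
  let W : ℤ → Set (ℝ × Y) := fun k => Ioo (k * δ) ((k + 2) * δ) ×ˢ B k
  have hWo : ∀ k, IsOpen (W k) := fun k => isOpen_Ioo.prod (hB k)
  have hWO : ∀ k, W k ⊆ O := by
    rintro k ⟨t, y⟩ ⟨ht, hy⟩
    exact hy t ⟨ht.1.le, ht.2.le⟩
  have hWa : ∀ k l, n ≤ l → AcO (W k) l := by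
    intro k l hl
    apply AcO_slab
    · nlinarith
    · exact h _ (hB k) l (by omega)
  have hWd : ∀ k l : ℤ, k + 2 ≤ l → Disjoint (W k) (W l) := by
    intro k l hkl
    rw [Set.disjoint_iff]
    rintro ⟨t, y⟩ ⟨⟨ht, _⟩, ⟨ht', _⟩⟩
    have h1 : ((k : ℝ) + 2) * δ ≤ l * δ := by
      have : ((k : ℝ) + 2) ≤ l := by exact_mod_cast hkl
      gcongr
    have h2 : t < ((k : ℝ) + 2) * δ := ht.2
    have h3 : (l : ℝ) * δ < t := ht'.1
    linarith
  set U : Set (ℝ × Y) := ⋃ j : ℤ, W (2 * j) with hU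
  set V : Set (ℝ × Y) := ⋃ j : ℤ, W (2 * j + 1) with hV
  have hUo : IsOpen U := isOpen_iUnion fun j => hWo _
  have hVo : IsOpen V := isOpen_iUnion fun j => hWo _
  have hUa : ∀ l, n ≤ l → AcO U l := fun l hl => AcO_iUnion' (fun j => hWo _)
    (fun i j hij => by
      rcases lt_or_gt_of_ne hij with h | h
      · exact hWd _ _ (by omega)
      · exact (hWd _ _ (by omega)).symm) (fun j => hWa _ l hl)
  have hVa : ∀ l, n ≤ l → AcO V l := fun l hl => AcO_iUnion' (fun j => hWo _)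
    (fun i j hij => by
      rcases lt_or_gt_of_ne hij with h | h
      · exact hWd _ _ (by omega)
      · exact (hWd _ _ (by omega)).symm) (fun j => hWa _ l hl)
  -- the overlap
  let W' : ℤ → Set (ℝ × Y) := fun k => Ioo ((k + 1) * δ) ((k + 2) * δ) ×ˢ (B k ∩ B (k + 1))
  have hWW : ∀ k, W k ∩ W (k + 1) = W' k := by
    intro k
    ext ⟨t, y⟩
    simp only [W, W', mem_inter_iff, mem_prod, mem_Ioo, Int.cast_add, Int.cast_one]
    constructor
    · rintro ⟨⟨⟨h1, h2⟩, h3⟩, ⟨h4, h5⟩, h6⟩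
      exact ⟨⟨h4, h2⟩, h3, h6⟩
    · rintro ⟨⟨h1, h2⟩, h3, h4⟩
      exact ⟨⟨⟨by linarith, h2⟩, h3⟩, ⟨h1, by linarith⟩, h4⟩
  have hUV : U ∩ V = ⋃ k, W' k := by
    apply subset_antisymm
    · rintro p ⟨hp1, hp2⟩
      obtain ⟨i, hi⟩ := mem_iUnion.mp hp1
      obtain ⟨j, hj⟩ := mem_iUnion.mp hp2
      have h1 : ¬ (2 * i + 2 ≤ 2 * j + 1) := fun h =>
        (Set.disjoint_iff.mp (hWd _ _ h)) ⟨hi, hj⟩
      have h2 : ¬ (2 * j + 1 + 2 ≤ 2 * i) := fun h =>
        (Set.disjoint_iff.mp (hWd _ _ h)) ⟨hj, hi⟩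
      rcases (show j = i ∨ i = j + 1 by omega) with rfl | rfl
      · rw [mem_iUnion]
        refine ⟨2 * j, ?_⟩
        rw [← hWW]
        exact ⟨hi, hj⟩
      · rw [mem_iUnion]
        refine ⟨2 * j + 1, ?_⟩
        rw [← hWW]
        refine ⟨hj, ?_⟩
        have : 2 * j + 1 + 1 = 2 * (j + 1) := by ring
        rw [this]
        exact hi
    · apply iUnion_subset
      intro k
      rw [← hWW]
      rcases Int.even_or_odd' k with ⟨j, rfl | rfl⟩
      · rintro p ⟨hp1, hp2⟩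
        exact ⟨mem_iUnion.mpr ⟨j, hp1⟩, mem_iUnion.mpr ⟨j, hp2⟩⟩
      · rintro p ⟨hp1, hp2⟩
        refine ⟨mem_iUnion.mpr ⟨j + 1, ?_⟩, mem_iUnion.mpr ⟨j, hp1⟩⟩
        have : 2 * (j + 1) = 2 * j + 1 + 1 := by ring
        rw [this]
        exact hp2
  have hUVa : AcO (U ∩ V) n := by
    rw [hUV]
    apply AcO_iUnion'
    · intro k
      exact isOpen_Ioo.prod ((hB k).inter (hB (k + 1)))
    · intro i j hij
      have key : ∀ k l : ℤ, k < l → Disjoint (W' k) (W' l) := by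
        intro k l hkl
        rw [Set.disjoint_iff]
        rintro ⟨t, y⟩ ⟨⟨ht, _⟩, ⟨ht', _⟩⟩
        have h1 : ((k : ℝ) + 2) * δ ≤ (l + 1) * δ := by
          have : ((k : ℝ) + 2) ≤ l + 1 := by
            have : (k : ℝ) + 1 ≤ l := by exact_mod_cast hkl
            linarith
          gcongr
        have h2 : t < ((k : ℝ) + 2) * δ := ht.2
        have h3 : ((l : ℝ) + 1) * δ < t := ht'.1
        linarith
      rcases lt_or_gt_of_ne hij with h | h
      · exact key _ _ h
      · exact (key _ _ h).symm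
    · intro k
      apply AcO_slab
      · nlinarith
      · exact h _ ((hB k).inter (hB (k + 1))) n hmn
  have hfin : AcO (U ∪ V) (n + 1) := AcO_of_cover hUo hVo (fun x hx => hx) subset_union_left
    subset_union_right (hUa _ (by omega)) (hVa _ (by omega)) (fun d hd hdc _ => hUVa d hd hdc)
  have hUVO : U ∪ V ⊆ O := union_subset (iUnion_subset fun j => hWO _) (iUnion_subset fun j => hWO _)
  have hKUV : K ⊆ U ∪ V := by
    rintro ⟨t, y⟩ hp
    have hk1 : ((⌈t / δ⌉ - 1 : ℤ) : ℝ) * δ < t := by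
      have := Int.ceil_lt_add_one (t / δ)
      push_cast
      have h1 : (⌈t / δ⌉ : ℝ) - 1 < t / δ := by linarith
      rwa [lt_div_iff₀ hδ0] at h1
    have hk2 : t ≤ (((⌈t / δ⌉ - 1 : ℤ) : ℝ) + 1) * δ := by
      have := Int.le_ceil (t / δ)
      push_cast
      have h1 : t / δ ≤ (⌈t / δ⌉ : ℝ) - 1 + 1 := by linarith
      rwa [div_le_iff₀ hδ0] at h1
    generalize (⌈t / δ⌉ - 1 : ℤ) = k at hk1 hk2
    have hmem : ((t, y) : ℝ × Y) ∈ W k := by
      refine ⟨⟨hk1, by nlinarith⟩, ?_⟩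
      intro s hs
      apply hth
      rw [mem_thickening_iff]
      refine ⟨(t, y), hp, ?_⟩
      rw [Prod.dist_eq]
      simp only [dist_self]
      rw [max_lt_iff]
      refine ⟨?_, hε⟩
      rw [Real.dist_eq, abs_lt]
      have e1 : ((k : ℝ) + 2) * δ = k * δ + 2 * δ := by ring
      have e2 : ((k : ℝ) + 1) * δ = k * δ + δ := by ring
      have h1 := hs.1
      have h2 := hs.2
      constructor <;> linarith
    rcases Int.even_or_odd' k with ⟨j, rfl | rfl⟩
    · exact Or.inl (mem_iUnion.mpr ⟨j, hmem⟩)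
    · exact Or.inr (mem_iUnion.mpr ⟨j, hmem⟩)
  have hz' : z ∈ sp (U ∪ V) (n + 1) := by
    rw [sp, Finsupp.mem_supported]
    intro σ hσ
    refine subset_trans ?_ hKUV
    exact subset_biUnion_of_mem (u := fun σ : Sing (ℝ × Y) (n + 1) => range σ) hσ
  exact Bd_mono hUVO _ (hfin z hz' hc)

end

end Pool.Agent.K1H56.Nag
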